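import Pool.Agent.Helper120_Alt.R4.Cor3
import Pool.Agent.Helper120_Alt.R3.Ov4

set_option autoImplicit false

/-! The ideal generated by one element: congruences. -/

namespace Pool.Agent.Helper120_Alt.R4

open Pool.Agent.Helper895.Alt
open Pool.Agent.Helper120_Alt.R3 (ge I0 DD psi_I0 closureG closureNA Lm Rm Lm_cons Rm_cons Lm_append
  Rm_append Lm_mem Rm_mem lw chi chi_single chi_eq_zero chi_Lm chi_Rm chi_lw chi_nil ne_nil_of_chi
  psi_sub_lw us mul_us us_mul map_us G)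

noncomputable section

variable {F : Type} [Field F] {K : Type} [Field K] [Algebra F K] (p : Fin 10 → K)
  (f : NA F (Fin 3))

/-- the part of the ideal without brackets-free image -/
def JJ : Submodule F (NA F (Fin 3)) :=
  LinearMap.ker (psi F (Fin 3) : NA F (Fin 3) →ₗ[F] AS F (Fin 3)) ⊓
    (FF p f).comap (ph F p : NA F (Fin 3) →ₗ[F] Oct K)

theorem mem_JJ (g : NA F (Fin 3)) : g ∈ JJ p f ↔ psi F (Fin 3) g = 0 ∧ ph F p g ∈ FF p f :=
  Iff.rfl

theorem JJ_mul (a : NA F (Fin 3)) {x : NA F (Fin 3)} (hx : x ∈ JJ p f) :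
    a * x ∈ JJ p f ∧ x * a ∈ JJ p f := by
  rw [mem_JJ] at hx
  rw [mem_JJ, mem_JJ, map_mul, map_mul, map_mul, map_mul, hx.1, mul_zero, zero_mul]
  have := (gen_Bim p _ : Bim p (FF p f)) a _ hx.2
  exact ⟨⟨rfl, this.1⟩, ⟨rfl, this.2⟩⟩

theorem I0_le_JJ : I0 F ≤ JJ p f := by
  intro x hx
  rw [mem_JJ, psi_I0 hx, ph_I0 p hx]
  exact ⟨rfl, zero_mem _⟩

/-- elements behaving as nuclear elements -/
def Nn : Submodule F (NA F (Fin 3)) where
  carrier := {g | (∀ a b : NA F (Fin 3), asc (ph F p g) (ph F p a) (ph F p b) ∈ FF p f) ∧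
    ∀ d ∈ D3 F p, ph F p g * d ∈ FF p f ∧ d * ph F p g ∈ FF p f}
  zero_mem' := by
    refine ⟨fun a b => ?_, fun d _ => ?_⟩
    · rw [map_zero]; unfold asc; simp
    · rw [map_zero, zero_mul, mul_zero]; exact ⟨zero_mem _, zero_mem _⟩
  add_mem' := by
    rintro x y ⟨h1, h2⟩ ⟨h3, h4⟩
    refine ⟨fun a b => ?_, fun d hd => ?_⟩
    · rw [map_add, asc_add1]; exact add_mem (h1 a b) (h3 a b)
    · rw [map_add, add_mul, mul_add]
      exact ⟨add_mem (h2 d hd).1 (h4 d hd).1, add_mem (h2 d hd).2 (h4 d hd).2⟩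
  smul_mem' := by
    rintro c x ⟨h1, h2⟩
    refine ⟨fun a b => ?_, fun d hd => ?_⟩
    · have : asc (ph F p (c • x)) (ph F p a) (ph F p b) =
          c • asc (ph F p x) (ph F p a) (ph F p b) := by
        rw [map_smul]; unfold asc
        rw [smul_mul_assoc, smul_mul_assoc, smul_mul_assoc, smul_sub]
      rw [this]; exact Submodule.smul_mem _ _ (h1 a b)
    · rw [map_smul, smul_mul_assoc, mul_smul_comm]
      exact ⟨Submodule.smul_mem _ _ (h2 d hd).1, Submodule.smul_mem _ _ (h2 d hd).2⟩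

theorem f_Nn : f ∈ Nn p f := by
  refine ⟨fun a b => subset_gen p (Or.inr ⟨a, b, rfl⟩), fun d hd => ?_⟩
  exact ⟨subset_gen p (Or.inl ⟨d, hd, Or.inl rfl⟩), subset_gen p (Or.inl ⟨d, hd, Or.inr rfl⟩)⟩

variable {p f}

theorem Nn_mul (a : NA F (Fin 3)) {x : NA F (Fin 3)} (hx : x ∈ Nn p f) :
    a * x ∈ Nn p f ∧ x * a ∈ Nn p f := by
  obtain ⟨h1, h2⟩ := hx
  have hB : ∀ a : NA F (Fin 3), ∀ x ∈ FF p f, ph F p a * x ∈ FF p f ∧ x * ph F p a ∈ FF p f :=
    gen_Bim p _
  have hfK : ∀ b c : NA F (Fin 3), fK (ph F p a) (ph F p x) (ph F p b) (ph F p c) ∈ FF p f := by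
    intro b c
    rw [← fK_shift2 (ph F p a) (ph F p x) (ph F p b) (ph F p c)]
    unfold fK
    rw [← map_mul, asc_cyc (ph F p x) (ph F p (b * c)) (ph F p a),
      asc_cyc (ph F p x) (ph F p b) (ph F p a), asc_cyc (ph F p x) (ph F p c) (ph F p a)]
    exact sub_mem (sub_mem (h1 _ _) (hB c _ (h1 _ _)).1) (hB b _ (h1 _ _)).2
  have hD : ∀ d ∈ D3 F p, ∀ b, asc (ph F p x) d (ph F p b) ∈ FF p f := by
    intro d hd b
    obtain ⟨k, _, rfl⟩ := (mem_D3 p d).mp hd
    exact h1 k b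
  constructor
  · refine ⟨fun b c => ?_, fun d hd => ?_⟩
    · rw [map_mul]
      have e : asc (ph F p a * ph F p x) (ph F p b) (ph F p c) =
          fK (ph F p a) (ph F p x) (ph F p b) (ph F p c) +
          ph F p x * asc (ph F p a) (ph F p b) (ph F p c) +
          asc (ph F p x) (ph F p b) (ph F p c) * ph F p a := by
        unfold fK; abel
      rw [e]
      exact add_mem (add_mem (hfK b c) (h2 _ (asc_D3 p a b c)).1) (hB a _ (h1 b c)).2
    · rw [map_mul]
      have h3 := h2 d hd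
      have h4 := D3_Bim p a d hd
      constructor
      · have e : (ph F p a * ph F p x) * d = ph F p a * (ph F p x * d) +
            asc (ph F p a) (ph F p x) d := by unfold asc; abel
        rw [e, ← asc_cyc (ph F p a) (ph F p x) d]
        exact add_mem (hB a _ h3.1).1 (hD d hd a)
      · have e : d * (ph F p a * ph F p x) = (d * ph F p a) * ph F p x -
            asc d (ph F p a) (ph F p x) := by unfold asc; abel
        rw [e, asc_cyc (ph F p x) d (ph F p a)]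
        exact sub_mem (h2 _ h4.2).2 (hD d hd a)
  · refine ⟨fun b c => ?_, fun d hd => ?_⟩
    · rw [map_mul]
      have e : asc (ph F p x * ph F p a) (ph F p b) (ph F p c) =
          fK (ph F p x) (ph F p a) (ph F p b) (ph F p c) +
          ph F p a * asc (ph F p x) (ph F p b) (ph F p c) +
          asc (ph F p a) (ph F p b) (ph F p c) * ph F p x := by
        unfold fK; abel
      rw [e, fK_swap12]
      exact add_mem (add_mem (neg_mem (hfK b c)) (hB a _ (h1 b c)).1) (h2 _ (asc_D3 p a b c)).2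
    · rw [map_mul]
      have h3 := h2 d hd
      have h4 := D3_Bim p a d hd
      constructor
      · have e : (ph F p x * ph F p a) * d = ph F p x * (ph F p a * d) +
            asc (ph F p x) (ph F p a) d := by unfold asc; abel
        rw [e, asc_swap23 (ph F p x) d (ph F p a)]
        exact add_mem (h2 _ h4.1).1 (neg_mem (hD d hd a))
      · have e : d * (ph F p x * ph F p a) = (d * ph F p x) * ph F p a -
            asc d (ph F p x) (ph F p a) := by unfold asc; abel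
        rw [e, asc_swap12 (ph F p x) d (ph F p a)]
        exact sub_mem (hB a _ h3.2).2 (neg_mem (hD d hd a))

theorem Nn_asc {x : NA F (Fin 3)} (hx : x ∈ Nn p f) (a b : NA F (Fin 3)) :
    asc x a b ∈ JJ p f ∧ asc a x b ∈ JJ p f ∧ asc a b x ∈ JJ p f := by
  have h0 : ∀ x y z : NA F (Fin 3), psi F (Fin 3) (asc x y z) = 0 := by
    intro x y z
    unfold asc
    rw [map_sub, map_mul, map_mul, map_mul, map_mul, mul_assoc, sub_self]
  rw [mem_JJ, mem_JJ, mem_JJ, ph_asc, ph_asc, ph_asc]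
  refine ⟨⟨h0 _ _ _, hx.1 a b⟩, ⟨h0 _ _ _, ?_⟩, ⟨h0 _ _ _, ?_⟩⟩
  · rw [asc_swap12 (ph F p x) (ph F p a)]; exact neg_mem (hx.1 a b)
  · rw [asc_cyc (ph F p x) (ph F p a) (ph F p b)]; exact hx.1 a b

theorem Nn_D {x k : NA F (Fin 3)} (hx : x ∈ Nn p f) (hk : psi F (Fin 3) k = 0) :
    x * k ∈ JJ p f ∧ k * x ∈ JJ p f := by
  rw [mem_JJ, mem_JJ, map_mul, map_mul, map_mul, map_mul, hk, mul_zero, zero_mul]
  have := hx.2 _ ((mem_D3 p _).mpr ⟨k, hk, rfl⟩)
  exact ⟨⟨rfl, this.1⟩, ⟨rfl, this.2⟩⟩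

/-- congruence -/
def Eqv (p : Fin 10 → K) (f x y : NA F (Fin 3)) : Prop := x - y ∈ JJ p f

theorem Eqv.refl (x : NA F (Fin 3)) : Eqv p f x x := by
  unfold Eqv; rw [sub_self]; exact zero_mem _

theorem Eqv.symm {x y : NA F (Fin 3)} (h : Eqv p f x y) : Eqv p f y x := by
  unfold Eqv at *; rw [← neg_sub]; exact neg_mem h

theorem Eqv.trans {x y z : NA F (Fin 3)} (h : Eqv p f x y) (h' : Eqv p f y z) :
    Eqv p f x z := by
  unfold Eqv at *
  have := add_mem h h'
  rwa [sub_add_sub_cancel] at this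

theorem Eqv.mulL {x y : NA F (Fin 3)} (h : Eqv p f x y) (a : NA F (Fin 3)) :
    Eqv p f (a * x) (a * y) := by
  unfold Eqv at *; rw [← mul_sub]; exact (JJ_mul p f a h).1

theorem Eqv.mulR {x y : NA F (Fin 3)} (h : Eqv p f x y) (a : NA F (Fin 3)) :
    Eqv p f (x * a) (y * a) := by
  unfold Eqv at *; rw [← sub_mul]; exact (JJ_mul p f a h).2

theorem Eqv.Lm {x y : NA F (Fin 3)} (h : Eqv p f x y) (P : List (Fin 3)) :
    Eqv p f (Lm F P x) (Lm F P y) := by
  unfold Eqv at *; rw [← map_sub]; exact Lm_mem (fun a _ hx => JJ_mul p f a hx) P h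

theorem Eqv.Rm {x y : NA F (Fin 3)} (h : Eqv p f x y) (P : List (Fin 3)) :
    Eqv p f (Rm F P x) (Rm F P y) := by
  unfold Eqv at *; rw [← map_sub]; exact Rm_mem (fun a _ hx => JJ_mul p f a hx) P h

theorem Eqv.asc1 {x : NA F (Fin 3)} (hx : x ∈ Nn p f) (a b : NA F (Fin 3)) :
    Eqv p f ((x * a) * b) (x * (a * b)) := (Nn_asc hx a b).1

theorem Eqv.asc2 {x : NA F (Fin 3)} (hx : x ∈ Nn p f) (a b : NA F (Fin 3)) :
    Eqv p f ((a * x) * b) (a * (x * b)) := (Nn_asc hx a b).2.1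

theorem Eqv.asc3 {x : NA F (Fin 3)} (hx : x ∈ Nn p f) (a b : NA F (Fin 3)) :
    Eqv p f ((a * b) * x) (a * (b * x)) := (Nn_asc hx a b).2.2

theorem mul_Rm {x : NA F (Fin 3)} (hx : x ∈ Nn p f) (Q : List (Fin 3)) (y : NA F (Fin 3)) :
    Eqv p f (x * Rm F Q y) (Rm F Q (x * y)) := by
  induction Q generalizing y with
  | nil => exact Eqv.refl _
  | cons i Q ih =>
    rw [Rm_cons, Rm_cons]
    exact (ih (y * ge F i)).trans ((Eqv.asc1 hx y (ge F i)).symm.Rm Q)

theorem mul_Rm' {x : NA F (Fin 3)} (a : NA F (Fin 3)) (hx : x ∈ Nn p f) (Q : List (Fin 3)) :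
    Eqv p f (a * Rm F Q x) (Rm F Q (a * x)) := by
  induction Q generalizing x with
  | nil => exact Eqv.refl _
  | cons i Q ih =>
    rw [Rm_cons, Rm_cons]
    exact (ih (Nn_mul (ge F i) hx).2).trans ((Eqv.asc2 hx a (ge F i)).symm.Rm Q)

theorem Rm_mul {x : NA F (Fin 3)} (hx : x ∈ Nn p f) (V : List (Fin 3)) (y : NA F (Fin 3)) :
    Eqv p f (Rm F V y * x) (y * Lm F V x) := by
  induction V generalizing y with
  | nil => exact Eqv.refl _
  | cons i V ih =>
    rw [Rm_cons, Lm_cons]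
    exact (ih (y * ge F i)).trans
      (Eqv.asc3 (Lm_mem (fun a _ hx => Nn_mul a hx) V hx) y (ge F i))

theorem Lm_mul {x : NA F (Fin 3)} (hx : x ∈ Nn p f) (P : List (Fin 3)) (y : NA F (Fin 3)) :
    Eqv p f (Lm F P y * x) (Lm F P (y * x)) := by
  induction P with
  | nil => exact Eqv.refl _
  | cons i P ih =>
    rw [Lm_cons, Lm_cons]
    exact (Eqv.asc3 hx (ge F i) (Lm F P y)).trans (ih.mulL (ge F i))

theorem mul_lw {x : NA F (Fin 3)} (hx : x ∈ Nn p f) {W : List (Fin 3)} (hW : W ≠ []) :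
    Eqv p f (x * lw F W) (Rm F W x) := by
  cases W with
  | nil => exact absurd rfl hW
  | cons i W => exact mul_Rm hx W (ge F i)

theorem lw_mul {x : NA F (Fin 3)} (hx : x ∈ Nn p f) {W : List (Fin 3)} (hW : W ≠ []) :
    Eqv p f (lw F W * x) (Lm F W x) := by
  cases W with
  | nil => exact absurd rfl hW
  | cons i W => exact Rm_mul hx W (ge F i)

theorem us_Eqv {g h : List (Fin 3) → NA F (Fin 3)} (H : ∀ W, W ≠ [] → Eqv p f (g W) (h W)) :
    Eqv p f (us f g) (us f h) := by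
  unfold Eqv us
  rw [Finsupp.sum, Finsupp.sum, ← Finset.sum_sub_distrib]
  apply Submodule.sum_mem
  intro W hW
  rw [← smul_sub]
  exact Submodule.smul_mem _ _ (H W (ne_nil_of_chi (Finsupp.mem_support_iff.mp hW)))

theorem G_Nn (P Q : List (Fin 3)) : G f P Q ∈ Nn p f :=
  Rm_mem (fun a _ hx => Nn_mul a hx) Q (Lm_mem (fun a _ hx => Nn_mul a hx) P (f_Nn p f))

theorem mul_f {x : NA F (Fin 3)} (hx : x ∈ Nn p f) :
    Eqv p f (x * f) (us f fun W => Rm F W x) := by
  have h1 : Eqv p f (x * f) (x * us f (lw F)) := by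
    unfold Eqv
    rw [← mul_sub]
    exact (Nn_D hx (psi_sub_lw f)).1
  rw [mul_us] at h1
  exact h1.trans (us_Eqv fun W hW => mul_lw hx hW)

theorem G_mul_f (P V : List (Fin 3)) :
    Eqv p f (G f P V * f) (us f fun W => Lm F (P ++ W ++ V) f) := by
  have h0 : psi F (Fin 3) (Rm F V (Lm F P (f - us f (lw F)))) = 0 := by
    rw [← chi_eq_zero, chi_Rm, chi_Lm]
    have : chi F (f - us f (lw F)) = 0 := by
      rw [chi_eq_zero]; exact psi_sub_lw f
    rw [this]; simp
  have h1 : Eqv p f (G f P V * f) (Rm F V (Lm F P (us f (lw F))) * f) := by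
    unfold Eqv G
    rw [← sub_mul, ← map_sub, ← map_sub]
    exact (Nn_D (f_Nn p f) h0).2
  rw [map_us, map_us, us_mul] at h1
  refine h1.trans (us_Eqv fun W hW => ?_)
  refine (Rm_mul (f_Nn p f) V _).trans ?_
  have h2 : Lm F V f ∈ Nn p f := Lm_mem (fun a _ hx => Nn_mul a hx) V (f_Nn p f)
  refine (Lm_mul h2 P _).trans ?_
  refine ((lw_mul h2 hW).Lm P).trans ?_
  rw [List.append_assoc, Lm_append, Lm_append]
  exact Eqv.refl _

/-- moving the relator to the right -/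
theorem star (P V Q : List (Fin 3)) :
    Eqv p f (us f fun W => G f P (V ++ W ++ Q)) (us f fun W => G f (P ++ W ++ V) Q) := by
  have h0 : G f P V ∈ Nn p f := G_Nn P V
  have h1 := ((mul_f h0).symm.trans (G_mul_f P V)).Rm Q
  rw [map_us, map_us] at h1
  have h2 : (fun W => Rm F Q (Rm F W (G f P V))) = fun W => G f P (V ++ W ++ Q) := by
    funext W
    unfold G
    rw [Rm_append, Rm_append]
  rw [h2] at h1
  exact h1

theorem JJ_sub {p : Fin 10 → K} {f : NA F (Fin 3)} (x : NA F (Fin 3)) {y : NA F (Fin 3)} {S : Submodule F (NA F (Fin 3))}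
    (hS : JJ p f ≤ S) (h : Eqv p f x y) (hy : y ∈ S) : x ∈ S := by
  rw [← sub_add_cancel x y]
  exact add_mem (hS h) hy

end

end Pool.Agent.Helper120_Alt.R4
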