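import Pool.Agent.Helper120_Alt.R4.Elm3
import Pool.Agent.Helper120_Alt.R4.Ov3
import Pool.Agent.Helper120_Alt.R3.Asm3

set_option autoImplicit false

/-! A basis of the kernel of `psi` modulo a finitely generated ideal. -/

namespace Pool.Agent.Helper120_Alt.R4

open Pool.Agent.Helper895.Alt
open Pool.Agent.Helper120_Alt.R3 (ge I0 DD psi_I0 closureG closureNA Lm Rm Lm_cons Rm_cons Lm_append
  Rm_append Lm_mem Rm_mem lw chi chi_single chi_eq_zero chi_Lm chi_Rm chi_lw chi_nil ne_nil_of_chi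
  psi_sub_lw us mul_us us_mul map_us G If If_mul f_If I0_le_If G_If DD_mul mem_DD_iff vNA psi_vNA
  cl cl_perm cmN psi_cmN vEN psi_vEN IxE IxJ okS BS)

noncomputable section

variable {F : Type} [Field F] {K : Type} [Field K] [Algebra F K] {p : Fin 10 → K}
  {f : NA F (Fin 3)}

theorem FF_le_map : FF p f ≤ (DD F ⊓ If f).map (ph F p : NA F (Fin 3) →ₗ[F] Oct K) := by
  have hmul : ∀ a x : NA F (Fin 3), x ∈ DD F ⊓ If f →
      a * x ∈ DD F ⊓ If f ∧ x * a ∈ DD F ⊓ If f := by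
    rintro a x ⟨h1, h2⟩
    have h3 := DD_mul a h1
    have h4 := If_mul a h2
    exact ⟨⟨h3.1, h4.1⟩, ⟨h3.2, h4.2⟩⟩
  apply gen_le
  · rintro x (⟨d, hd, hx⟩ | ⟨a, b, rfl⟩)
    · obtain ⟨k, hk, rfl⟩ := (mem_D3 p d).mp hd
      rw [← mem_DD_iff] at hk
      have h3 := DD_mul f hk
      have h4 := If_mul k (f_If (f := f))
      rcases hx with rfl | rfl
      · exact ⟨f * k, ⟨h3.1, h4.2⟩, map_mul (ph F p) _ _⟩
      · exact ⟨k * f, ⟨h3.2, h4.1⟩, map_mul (ph F p) _ _⟩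
    · refine ⟨asc f a b, ⟨?_, ?_⟩, ph_asc p f a b⟩
      · show asc f a b ∈ DD F
        rw [mem_DD_iff]
        unfold asc
        rw [map_sub, map_mul, map_mul, map_mul, map_mul, mul_assoc, sub_self]
      · unfold asc
        exact sub_mem (If_mul b (If_mul a f_If).2).2 (If_mul (a * b) f_If).2
  · rintro a _ ⟨x, hx, rfl⟩
    have := hmul a x hx
    exact ⟨⟨a * x, this.1, map_mul (ph F p) _ _⟩, ⟨x * a, this.2, map_mul (ph F p) _ _⟩⟩

theorem core_PC {I : Submodule F (Oct K)} (hI : Bim p I) : PC p (core F p I) := by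
  have hC := core_Bim hI
  have ht : ∀ c ∈ A3 F p, ∀ x ∈ core F p I, tr c • x ∈ core F p I :=
    fun _ hc _ hx => core_tr hc hx
  obtain ⟨t0, t1, t2, t01, t02, t12, t012⟩ := tr_fm p
  have e0 : ∀ x ∈ core F p I, iv p 0 • x ∈ core F p I := t0 ▸ ht _ (fm_A3 0)
  have e1 : ∀ x ∈ core F p I, iv p 1 • x ∈ core F p I := t1 ▸ ht _ (fm_A3 1)
  have e2 : ∀ x ∈ core F p I, iv p 2 • x ∈ core F p I := t2 ▸ ht _ (fm_A3 2)
  have n : ∀ (l : Fin 3) (j : Fin 10),
      (∀ v, iv p j • v = tr (fm p l) • (fm p l * v) - fm p l * (fm p l * v)) →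
      ∀ x ∈ core F p I, iv p j • x ∈ core F p I := by
    intro l j h x hx
    rw [h x]
    have h3 := hC.l (fm_A3 l) hx
    exact sub_mem (ht _ (fm_A3 l) _ h3) (hC.l (fm_A3 l) h3)
  have q3 : ∀ (l m : Fin 3) (i i' j : Fin 10), (∀ x ∈ core F p I, iv p i • x ∈ core F p I) →
      (∀ x ∈ core F p I, iv p i' • x ∈ core F p I) →
      tr (fm p l * fm p m) = iv p i * iv p i' - iv p j →
      ∀ x ∈ core F p I, iv p j • x ∈ core F p I := by
    intro l m i i' j hi hi' ht' x hx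
    have h3 : iv p j • x = iv p i • iv p i' • x - tr (fm p l * fm p m) • x := by
      rw [ht', smul_smul, ← sub_smul]; congr 1; ring
    rw [h3]
    exact sub_mem (hi _ (hi' _ hx)) (ht _ (A3_mul (fm_A3 l) (fm_A3 m)) _ hx)
  have e3 := n 0 3 iv_smul_3
  have e4 := n 1 4 iv_smul_4
  have e5 := n 2 5 iv_smul_5
  have e6 := q3 0 1 0 1 6 e0 e1 t01
  have e7 := q3 0 2 0 2 7 e0 e2 t02
  have e8 := q3 1 2 1 2 8 e1 e2 t12
  have e9 : ∀ x ∈ core F p I, iv p 9 • x ∈ core F p I := by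
    intro x hx
    have h3 : iv p 9 • x = iv p 0 • iv p 1 • iv p 2 • x - iv p 6 • iv p 2 • x -
        tr ((fm p 0 * fm p 1) * fm p 2) • x := by
      rw [t012, smul_smul, smul_smul, smul_smul, ← sub_smul, ← sub_smul]; congr 1; ring
    rw [h3]
    exact sub_mem (sub_mem (e0 _ (e1 _ (e2 _ hx))) (e6 _ (e2 _ hx)))
      (ht _ (A3_mul (A3_mul (fm_A3 0) (fm_A3 1)) (fm_A3 2)) _ hx)
  intro i
  fin_cases i
  · exact e0
  · exact e1
  · exact e2
  · exact e3
  · exact e4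
  · exact e5
  · exact e6
  · exact e7
  · exact e8
  · exact e9

theorem KK_tr {c : Oct K} (hc : c ∈ A3 F p) {x : Oct K} (hx : x ∈ KK p f) :
    tr c • x ∈ KK p f := by
  refine gen_smul p (gen_Bim p _) _ ?_ hx
  rintro y ((hy | hy) | rfl)
  · apply F1_le_FF p f |>.trans (FF_le_KK p f)
    obtain ⟨d, hd, rfl | rfl⟩ := hy
    · exact subset_gen p ⟨_, D3_tr hc hd, Or.inl (by rw [mul_smul_comm])⟩
    · exact subset_gen p ⟨_, D3_tr hc hd, Or.inr (by rw [smul_mul_assoc])⟩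
  · obtain ⟨a, rfl⟩ := hc
    exact tr_S2 a hy
  · have h := tr_fd_K1 (p := p) (f := f) (D3_tr hc (om_D3 (F := F) p))
    rw [mul_smul_comm, tr_smul] at h
    unfold sh
    rw [smul_smul]
    exact K1_le_KK p f h

theorem KK_le_core {I : Submodule F (Oct K)} (h : KK p f ≤ I) : KK p f ≤ core F p I := by
  intro v hv l hl
  apply h
  induction l with
  | nil => simpa using hv
  | cons c l ih =>
    rw [List.map_cons, List.prod_cons, mul_smul]
    exact KK_tr (hl c (by simp)) (ih fun c hc => hl c (by simp [hc]))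

/-- the octonionic part of the ideal, with some further generators -/
def IY (p : Fin 10 → K) (f : NA F (Fin 3)) {b : ℕ} (y : Fin b → Oct K) :
    Submodule F (Oct K) := gen F p (S1 p f ∪ S2 p f ∪ Set.range y)

theorem FF_le_IY {b : ℕ} (y : Fin b → Oct K) : FF p f ≤ IY p f y :=
  gen_mono p Set.subset_union_left

theorem y_IY {b : ℕ} (y : Fin b → Oct K) (t : Fin b) : y t ∈ IY p f y :=
  subset_gen p (Or.inr ⟨t, rfl⟩)

theorem IY_Bim {b : ℕ} (y : Fin b → Oct K) : Bim p (IY p f y) := gen_Bim p _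

theorem sup_Bim {M N : Submodule F (Oct K)} (hM : Bim p M) (hN : Bim p N) : Bim p (M ⊔ N) := by
  intro a x hx
  obtain ⟨y, hy, z, hz, rfl⟩ := Submodule.mem_sup.mp hx
  rw [mul_add, add_mul]
  exact ⟨Submodule.add_mem_sup (hM a y hy).1 (hN a z hz).1,
    Submodule.add_mem_sup (hM a y hy).2 (hN a z hz).2⟩

theorem IY_le_D3 {b : ℕ} {y : Fin b → Oct K} (hy : ∀ t, y t ∈ D3 F p) : IY p f y ≤ D3 F p := by
  apply gen_le
  · rintro x ((⟨d, hd, rfl | rfl⟩ | ⟨a, b, rfl⟩) | ⟨t, rfl⟩)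
    · exact (D3_Bim p f d hd).1
    · exact (D3_Bim p f d hd).2
    · exact asc_D3 p f a b
    · exact hy t
  · exact D3_Bim p

/-- a combination of standard elements, as a list -/
def cmb (p : Fin 10 → K) (E : List (F × (Fin 8 × (Fin 10 → ℕ)))) : Oct K :=
  (E.map fun e => e.1 • (mon p e.2.2 • dd p e.2.1)).sum

theorem exists_cmb {x : Oct K} (hx : x ∈ D3 F p) : ∃ E, cmb (F := F) p E = x := by
  obtain ⟨l, rfl⟩ := Finsupp.mem_span_range_iff_exists_finsupp.mp hx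
  refine ⟨l.support.toList.map fun x => (l x, x), ?_⟩
  unfold cmb
  rw [List.map_map, Finsupp.sum, ← Finset.sum_map_toList]
  rfl

theorem mon_mul (α α' : Fin 10 → ℕ) : mon p (α' + α) = mon p α * mon p α' := by
  unfold mon
  simp only [Pi.add_apply, pow_add, Finset.prod_mul_distrib]
  rw [mul_comm]

theorem ph_cmN (E : List (F × (Fin 8 × (Fin 10 → ℕ)))) (α : Fin 10 → ℕ) :
    ph F p (cmN E α) = mon p α • cmb p E := by
  unfold cmN cmb
  induction E with
  | nil => simp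
  | cons e E ih =>
    rw [List.map_cons, List.sum_cons, List.map_cons, List.sum_cons, map_add, ih, smul_add,
      map_smul, ph_vNA, mon_mul, mul_smul, smul_comm (mon p α) e.1]

theorem ph_Lm (l : List (Fin 3)) (x : NA F (Fin 3)) :
    ph F p (Lm F l x) = Lw F p l (ph F p x) := by
  induction l with
  | nil => rfl
  | cons i l ih => rw [Lm_cons, map_mul, ph_ge, ih, Lw_cons]

theorem ph_vEN {k : ℕ} (G : Fin k → List (F × (Fin 8 × (Fin 10 → ℕ)))) (x : IxE k) :
    ph F p (vEN G x) = vE F p (fun s => cmb p (G s)) x := by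
  unfold vEN vE
  rw [ph_Lm, ph_cmN, Lw_smulK]

/-- lifts of the multiples of the scalar element -/
def vS (st : NA F (Fin 3)) (β : Fin 3 → ℕ) : NA F (Fin 3) := Lm F (cl β) st

theorem psi_vS {st : NA F (Fin 3)} (h : psi F (Fin 3) st = 0) (β : Fin 3 → ℕ) :
    psi F (Fin 3) (vS st β) = 0 := by
  rw [← mem_DD_iff]
  exact Lm_mem (fun a _ hx => DD_mul a hx) _ ((mem_DD_iff _).mpr h)

/-- the basis elements -/
def vJ {k : ℕ} (G : Fin k → List (F × (Fin 8 × (Fin 10 → ℕ)))) (st : NA F (Fin 3)) :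
    IxJ k → NA F (Fin 3) := Sum.elim (vNA F) (Sum.elim (vEN G) (vS st))

/-- the part of the ideal in the kernel of `psi`, with further generators -/
def JY (p : Fin 10 → K) (f : NA F (Fin 3)) {b : ℕ} (y : Fin b → Oct K) :
    Submodule F (NA F (Fin 3)) :=
  LinearMap.ker (psi F (Fin 3) : NA F (Fin 3) →ₗ[F] AS F (Fin 3)) ⊓
    (IY p f y).comap (ph F p : NA F (Fin 3) →ₗ[F] Oct K)

theorem mem_JY {b : ℕ} (y : Fin b → Oct K) (g : NA F (Fin 3)) :
    g ∈ JY p f y ↔ psi F (Fin 3) g = 0 ∧ ph F p g ∈ IY p f y := Iff.rfl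

/-- a basis of the kernel of `psi` modulo the ideal -/
theorem basis_J (h2 : (2 : K) = 0) {b : ℕ} {y : Fin b → Oct K} (hy : ∀ t, y t ∈ D3 F p) :
    ∃ (k : ℕ) (G : Fin k → List (F × (Fin 8 × (Fin 10 → ℕ)))) (st : NA F (Fin 3))
      (S2 : Finset (Fin 8 × (Fin 10 → ℕ))) (SN : Finset (Fin k × (Fin 3 → ℕ)))
      (SC : Finset (IxE k)) (S3 : Finset (Fin 3 → ℕ)),
      BS (DD F) (JY p f y) (vJ G st) (okS S2 SN SC S3) := by
  let I := IY p f y ⊔ KK p f
  have hI : Bim p I := sup_Bim (IY_Bim y) (gen_Bim p _)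
  have hID : I ≤ D3 F p := sup_le (IY_le_D3 hy) KK_le_D3
  have hKC : KK p f ≤ core F p I := KK_le_core le_sup_right
  obtain ⟨k, g, hgI, hspan, htri⟩ := gens h2 hI y (fun t => Submodule.mem_sup_left (y_IY y t))
    (fun N hN hyN hCN => sup_le (gen_le p (by
      rintro x (hx | ⟨t, rfl⟩)
      · exact hCN (hKC (subset_gen p (Or.inl hx)))
      · exact hyN t) hN) (hKC.trans hCN))
  have hC : PC p (core F p I) := core_PC hI
  obtain ⟨SN, SC, hE⟩ := bas_E (C := core F p I) (N := I) hC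
    (fun l x hx => (core_Bim hI).l (fm_A3 l) hx) (fun l x hx => hI.l (fm_A3 l) hx) core_le
    hspan htri
  have hVD : VE F p (core F p I) g ≤ D3 F p := by
    apply sup_le (core_le.trans hID)
    rw [Submodule.span_le]
    rintro _ ⟨x, rfl⟩
    exact (D3_PC p).mon _ (I_Lw (D3_Bim p) _ (hID (hgI _)))
  obtain ⟨S2, hS2⟩ := bas_PC (VE_PC hC g) hVD
  obtain ⟨S3, hS3⟩ := bas_sh (f := f) (IY_Bim y) (FF_le_IY y)
  obtain ⟨st, hst, hst'⟩ := (mem_D3 (F := F) p (sh p f)).mp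
    (KK_le_D3 (subset_gen p (Or.inr rfl)))
  choose G hG using fun s => exists_cmb (hID (hgI s))
  refine ⟨k, G, st, S2, SN, SC, S3, ?_⟩
  have h1 := hS2.layer (hE.layer hS3)
  have hg : (fun s => cmb p (G s)) = g := funext hG
  have h3 : BS (D3 F p) (IY p f y) (fun x => (ph F p : NA F (Fin 3) →ₗ[F] Oct K)
      (vJ G st x)) (okS S2 SN SC S3) := h1.congr (by
    rintro (x | (x | β))
    · show mon p x.2 • dd p x.1 - ph F p (vNA F x) ∈ _
      rw [ph_vNA, sub_self]; exact zero_mem _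
    · show vE F p g x - ph F p (vEN G x) ∈ _
      rw [ph_vEN, hg, sub_self]; exact zero_mem _
    · show Lw F p (cl β) (sh p f) - ph F p (vS st β) ∈ _
      unfold vS
      rw [ph_Lm, hst', sub_self]; exact zero_mem _)
  exact h3.pull (ph F p : NA F (Fin 3) →ₗ[F] Oct K) (by
      rintro (x | (x | β)) _
      · exact (mem_DD_iff _).mpr (psi_vNA x)
      · exact (mem_DD_iff _).mpr (psi_vEN G x)
      · exact (mem_DD_iff _).mpr (psi_vS hst β))
    (fun x hx => (mem_DD_iff x).mpr hx.1)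
    (fun x hx => (mem_D3 p _).mpr ⟨x, (mem_DD_iff x).mp hx, rfl⟩)
    (fun x hx => ⟨fun hx' => ⟨(mem_DD_iff x).mp hx, hx'⟩, fun hx' => hx'.2⟩)

end

end Pool.Agent.Helper120_Alt.R4
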