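import Pool.Agent.Helper120_Alt.R4.K3

set_option autoImplicit false

/-! The core of a bimodule: its largest part closed under multiplication by traces. -/

namespace Pool.Agent.Helper120_Alt.R4

open Pool.Agent.Helper895.Alt
open Pool.Agent.Helper120_Alt.R3 (ge cl cl_perm closureG cm cm_sub cm_add cm_neg fK_cm cm_mul)

noncomputable section

/-- an identity of alternative rings -/
theorem fK_id {B : Type} [NonUnitalNonAssocRing B] [AltRing B] (w x y z : B) :
    fK w x y z = asc (cm w x) y z + asc (cm y z) w x := by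
  have h1 := fK_sum w x y z
  have h2 := fK_cm w x y z
  have h3 := fK_cm y z w x
  have e0 : fK y z w x = fK w x y z := fK_shift2 w x y z
  have e1 : fK x y z w = -fK w x y z := by
    have h := fK_cyc x y z w
    rw [h, neg_neg]
  have e2 : asc z w x = asc w x z := asc_cyc w x z ▸ (asc_cyc x z w)
  have e3 : asc y w x = asc w x y := asc_cyc w x y ▸ (asc_cyc x y w)
  rw [e0, e1] at h1
  rw [e0, e2, e3] at h3
  have c1 : ∀ a b : B, cm a b = a * b - b * a := fun _ _ => rfl
  rw [c1 w (asc x y z), c1 x (asc w y z)] at h2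
  rw [c1 y (asc w x z), c1 z (asc w x y)] at h3
  linear_combination (norm := abel) h2 + h3 - h1

variable {F : Type} [Field F] {K : Type} [Field K] [Algebra F K] {p : Fin 10 → K}

/-- the image of the free algebra -/
def A3 (F : Type) [Field F] {K : Type} [Field K] [Algebra F K] (p : Fin 10 → K) :
    Submodule F (Oct K) := LinearMap.range (ph F p : NA F (Fin 3) →ₗ[F] Oct K)

theorem ph_A3 (a : NA F (Fin 3)) : ph F p a ∈ A3 F p := ⟨a, rfl⟩

theorem A3_mul {x y : Oct K} (hx : x ∈ A3 F p) (hy : y ∈ A3 F p) : x * y ∈ A3 F p := by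
  obtain ⟨a, rfl⟩ := hx
  obtain ⟨b, rfl⟩ := hy
  exact ⟨a * b, map_mul (ph F p) a b⟩

theorem A3_T {x y : Oct K} (hx : x ∈ A3 F p) (hy : y ∈ A3 F p) : T x y ∈ A3 F p :=
  add_mem (A3_mul hx hy) (A3_mul hy hx)

theorem A3_cm {x y : Oct K} (hx : x ∈ A3 F p) (hy : y ∈ A3 F p) : cm x y ∈ A3 F p :=
  sub_mem (A3_mul hx hy) (A3_mul hy hx)

theorem D3_le_A3 : D3 F p ≤ A3 F p := by
  intro x hx
  obtain ⟨g, _, rfl⟩ := (mem_D3 p x).mp hx
  exact ph_A3 g

theorem fm_A3 (i : Fin 3) : fm p i ∈ A3 F p := by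
  rw [← ph_ge (F := F) p i]; exact ph_A3 _

theorem asc_A3 {x y z : Oct K} (hx : x ∈ A3 F p) (hy : y ∈ A3 F p) (hz : z ∈ A3 F p) :
    asc x y z ∈ D3 F p := by
  obtain ⟨a, rfl⟩ := hx
  obtain ⟨b, rfl⟩ := hy
  obtain ⟨c, rfl⟩ := hz
  exact asc_D3 p a b c

theorem Bim.l {N : Submodule F (Oct K)} (h : Bim p N) {a x : Oct K} (ha : a ∈ A3 F p)
    (hx : x ∈ N) : a * x ∈ N := by
  obtain ⟨g, rfl⟩ := ha
  exact (h g x hx).1

theorem Bim.r {N : Submodule F (Oct K)} (h : Bim p N) {a x : Oct K} (ha : a ∈ A3 F p)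
    (hx : x ∈ N) : x * a ∈ N := by
  obtain ⟨g, rfl⟩ := ha
  exact (h g x hx).2

theorem Bim.t {N : Submodule F (Oct K)} (h : Bim p N) {a x : Oct K} (ha : a ∈ A3 F p)
    (hx : x ∈ N) : T a x ∈ N := add_mem (h.l ha hx) (h.r ha hx)

theorem Bim.c {N : Submodule F (Oct K)} (h : Bim p N) {a x : Oct K} (ha : a ∈ A3 F p)
    (hx : x ∈ N) : cm a x ∈ N := sub_mem (h.l ha hx) (h.r ha hx)

theorem Bim.a {N : Submodule F (Oct K)} (h : Bim p N) {a b x : Oct K} (ha : a ∈ A3 F p)
    (hb : b ∈ A3 F p) (hx : x ∈ N) : asc x a b ∈ N :=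
  sub_mem (h.r hb (h.r ha hx)) (h.r (A3_mul ha hb) hx)

theorem one_smul_mul (k : K) (x : Oct K) : (k • one) * x = k • x := by
  rw [smul_mul_assoc, one_mul']

theorem mul_one_smul (k : K) (x : Oct K) : x * (k • one) = k • x := by
  rw [mul_smul_comm, mul_one']

theorem T_tz {c z : Oct K} (h : tr z = 0) : T c z = tr c • z + tr (c * z) • one := by
  rw [T_eq, h, zero_smul, mul_zero, zero_sub, neg_smul]; abel

theorem tr_T (c z : Oct K) : tr (T c z) = 2 * tr (c * z) := by
  unfold T
  rw [tr_add, tr_comm z c]; ring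

theorem tr_cm (a b : Oct K) : tr (cm a b) = 0 := by
  unfold cm
  rw [tr_sub, tr_comm a b, sub_self]

theorem tr_one_smul (k : K) (z : Oct K) (h : tr z = 0) (c : Oct K) :
    tr ((c + k • one) * z) = tr (c * z) := by
  rw [add_mul, one_smul_mul, tr_add, tr_smul, h, mul_zero, add_zero]

theorem D3_tr {c d : Oct K} (hc : c ∈ A3 F p) (hd : d ∈ D3 F p) : tr c • d ∈ D3 F p := by
  have h1 := T_eq c d
  have hB := D3_Bim (F := F) p
  have h2 : tr c • d = T c d - (tr d • one) * c + (tr c * tr d) • one - tr (c * d) • one := by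
    rw [h1, one_smul_mul, sub_smul]; abel
  rw [h2]
  have h3 : (tr d • one) * c ∈ D3 F p := hB.r hc (tr_D3 p hd)
  have h4 : (tr c * tr d) • one ∈ D3 F p := by
    have : tr ((tr d • one) * c) = tr c * tr d := by
      rw [one_smul_mul, tr_smul, mul_comm]
    rw [← this]
    exact tr_D3 p h3
  exact sub_mem (add_mem (sub_mem (hB.t hc hd) h3) h4) (tr_D3 p (hB.l hc hd))

theorem D3_trs {l : List (Oct K)} (hl : ∀ c ∈ l, c ∈ A3 F p) {d : Oct K} (hd : d ∈ D3 F p) :
    (l.map tr).prod • d ∈ D3 F p := by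
  induction l with
  | nil => simpa using hd
  | cons c l ih =>
    rw [List.map_cons, List.prod_cons, mul_smul]
    exact D3_tr (hl c (by simp)) (ih fun c hc => hl c (by simp [hc]))

/-- the core -/
def core (F : Type) [Field F] {K : Type} [Field K] [Algebra F K] (p : Fin 10 → K)
    (I : Submodule F (Oct K)) : Submodule F (Oct K) where
  carrier := {v | ∀ l : List (Oct K), (∀ c ∈ l, c ∈ A3 F p) → (l.map tr).prod • v ∈ I}
  zero_mem' := fun l _ => by rw [smul_zero]; exact zero_mem _
  add_mem' := fun {a b} ha hb l hl => by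
    rw [smul_add]; exact add_mem (ha l hl) (hb l hl)
  smul_mem' := fun c x hx l hl => by
    rw [smul_comm]; exact Submodule.smul_mem _ _ (hx l hl)

variable {I : Submodule F (Oct K)}

theorem core_le : core F p I ≤ I := by
  intro v hv
  have := hv [] (by simp)
  simpa using this

theorem core_tr {c v : Oct K} (hc : c ∈ A3 F p) (hv : v ∈ core F p I) :
    tr c • v ∈ core F p I := by
  intro l hl
  have := hv (c :: l) (by
    intro d hd
    rcases List.mem_cons.mp hd with rfl | hd
    · exact hc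
    · exact hl d hd)
  rw [List.map_cons, List.prod_cons, mul_comm, mul_smul] at this
  exact this

theorem core_Bim (hI : Bim p I) : Bim p (core F p I) := by
  intro a x hx
  constructor
  · intro l hl
    rw [← mul_smul_comm]; exact (hI a _ (hx l hl)).1
  · intro l hl
    rw [← smul_mul_assoc]; exact (hI a _ (hx l hl)).2


/-- a step towards the core -/
theorem mem_core_step {z : Oct K} (hz : z ∈ I)
    (h1 : ∀ c ∈ A3 F p, tr c • z ∈ core F p I) : z ∈ core F p I := by
  intro l hl
  cases l with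
  | nil => simpa using hz
  | cons c l =>
    rw [List.map_cons, List.prod_cons, mul_comm, mul_smul]
    exact h1 c (hl c (by simp)) l fun x hx => hl x (by simp [hx])

/-- families stable under traces lie in the core -/
theorem core_of (P : Oct K → Prop) (φ : Oct K → Oct K) (h1 : ∀ δ, P δ → φ δ ∈ I)
    (h2 : ∀ δ c, P δ → c ∈ A3 F p → ∃ δ', P δ' ∧ tr c • φ δ = φ δ') {δ : Oct K} (h : P δ) :
    φ δ ∈ core F p I := by
  intro l
  induction l generalizing δ with
  | nil => intro _; simpa using h1 δ h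
  | cons c l ih =>
    intro hl
    obtain ⟨δ', hδ', e⟩ := h2 δ c h (hl c (by simp))
    rw [List.map_cons, List.prod_cons, mul_comm, mul_smul, e]
    exact ih hδ' fun x hx => hl x (by simp [hx])

end

end Pool.Agent.Helper120_Alt.R4
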