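import Pool.Agent.Helper120_Alt.R4.Cor3

set_option autoImplicit false

/-! Commutativity of the multiplications modulo the core, in characteristic two. -/

namespace Pool.Agent.Helper120_Alt.R4

open Pool.Agent.Helper895.Alt
open Pool.Agent.Helper120_Alt.R3 (ge cl cl_perm closureG cm cm_sub cm_add cm_neg fK_cm cm_mul)

noncomputable section

variable {F : Type} [Field F] {K : Type} [Field K] [Algebra F K] {p : Fin 10 → K}
  {I : Submodule F (Oct K)}

theorem cm_smul (k : K) (a b : Oct K) : cm a (k • b) = k • cm a b := by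
  unfold cm; rw [mul_smul_comm, smul_mul_assoc, smul_sub]

theorem cm_smulL (k : K) (a b : Oct K) : cm (k • a) b = k • cm a b := by
  unfold cm; rw [mul_smul_comm, smul_mul_assoc, smul_sub]

theorem cm_one (k : K) (a : Oct K) : cm a (k • one) = 0 := by
  unfold cm; rw [mul_one_smul, one_smul_mul, sub_self]

theorem cm_oneL (k : K) (a : Oct K) : cm (k • one) a = 0 := by
  unfold cm; rw [mul_one_smul, one_smul_mul, sub_self]

theorem cm_self (a : Oct K) : cm a a = 0 := by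
  unfold cm; rw [sub_self]

theorem cm_subL (a b c : Oct K) : cm (a - b) c = cm a c - cm b c := by
  unfold cm; simp only [mul_sub, sub_mul]; abel

theorem asc_smulK (k : K) (a b c : Oct K) : asc (k • a) b c = k • asc a b c := by
  unfold asc; rw [smul_mul_assoc, smul_mul_assoc, smul_mul_assoc, smul_sub]

theorem asc_smulK2 (k : K) (a b c : Oct K) : asc a (k • b) c = k • asc a b c := by
  unfold asc; rw [mul_smul_comm, smul_mul_assoc, smul_mul_assoc, mul_smul_comm, smul_sub]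

theorem asc_one (k : K) (b c : Oct K) : asc (k • one) b c = 0 := by
  unfold asc; rw [one_smul_mul, smul_mul_assoc, one_smul_mul, sub_self]

theorem asc_one2 (k : K) (a c : Oct K) : asc a (k • one) c = 0 := by
  unfold asc; rw [mul_one_smul, one_smul_mul, smul_mul_assoc, mul_smul_comm, sub_self]

theorem tz_smul {c z : Oct K} (h : tr z = 0) : tr c • z = T c z - tr (c * z) • one := by
  rw [T_tz h]; abel

theorem DI_core (hI : Bim p I) {d m : Oct K} (hd : d ∈ D3 F p) (hm : m ∈ I) :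
    d * m ∈ core F p I ∧ m * d ∈ core F p I := by
  constructor
  · intro l hl
    rw [← smul_mul_assoc]; exact hI.l (D3_le_A3 (D3_trs hl hd)) hm
  · intro l hl
    rw [← mul_smul_comm]; exact hI.r (D3_le_A3 (D3_trs hl hd)) hm

theorem cm_A3_tz (h2 : (2 : K) = 0) (c z : Oct K) : tr (T c z) = 0 := by
  rw [tr_T, h2, zero_mul]

theorem T_cm (h2 : (2 : K) = 0) (c z : Oct K) : T c z = cm c z := by
  have h : z * c + z * c = 0 := by
    have : z * c + z * c = (2 : K) • (z * c) := by rw [two_smul]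
    rw [this, h2, zero_smul]
  have h3 : -(z * c) = z * c := by
    rw [neg_eq_iff_add_eq_zero]; exact h
  unfold T cm
  rw [sub_eq_add_neg, h3]

section tz

variable (h2 : (2 : K) = 0) (hI : Bim p I)
include h2 hI

theorem tz_cm {a δ : Oct K} (ha : a ∈ A3 F p) (hδ : δ ∈ I) (h0 : tr δ = 0) :
    cm a δ ∈ core F p I := by
  refine core_of (fun δ => δ ∈ I ∧ tr δ = 0) (fun δ => cm a δ) (fun δ h => hI.c ha h.1) ?_
    (δ := δ) ⟨hδ, h0⟩
  rintro δ c ⟨h3, h4⟩ hc
  refine ⟨T c δ, ⟨hI.t hc h3, cm_A3_tz h2 _ _⟩, ?_⟩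
  show tr c • cm a δ = cm a (T c δ)
  rw [← cm_smul, tz_smul h4, cm_sub, cm_one, sub_zero]

theorem tz_asc {a b δ : Oct K} (ha : a ∈ A3 F p) (hb : b ∈ A3 F p) (hδ : δ ∈ I)
    (h0 : tr δ = 0) : asc δ a b ∈ core F p I := by
  refine core_of (fun δ => δ ∈ I ∧ tr δ = 0) (fun δ => asc δ a b) (fun δ h => hI.a ha hb h.1) ?_
    (δ := δ) ⟨hδ, h0⟩
  rintro δ c ⟨h3, h4⟩ hc
  refine ⟨T c δ, ⟨hI.t hc h3, cm_A3_tz h2 _ _⟩, ?_⟩
  show tr c • asc δ a b = asc (T c δ) a b
  rw [← asc_smulK, tz_smul h4, asc_sub1, asc_one, sub_zero]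

theorem u_cm {u m : Oct K} (hu : u ∈ A3 F p) (hm : m ∈ I) (h0 : tr u = 0) :
    cm u m ∈ core F p I := by
  refine core_of (fun u => u ∈ A3 F p ∧ tr u = 0) (fun u => cm u m) (fun δ h => hI.c h.1 hm) ?_
    (δ := u) ⟨hu, h0⟩
  rintro δ c ⟨h3, h4⟩ hc
  refine ⟨T c δ, ⟨A3_T hc h3, cm_A3_tz h2 _ _⟩, ?_⟩
  show tr c • cm δ m = cm (T c δ) m
  rw [← cm_smulL, tz_smul h4, cm_subL, cm_oneL, sub_zero]

theorem u_asc {u m b : Oct K} (hu : u ∈ A3 F p) (hb : b ∈ A3 F p) (hm : m ∈ I)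
    (h0 : tr u = 0) : asc m u b ∈ core F p I := by
  refine core_of (fun u => u ∈ A3 F p ∧ tr u = 0) (fun u => asc m u b)
    (fun δ h => hI.a h.1 hb hm) ?_ (δ := u) ⟨hu, h0⟩
  rintro δ c ⟨h3, h4⟩ hc
  refine ⟨T c δ, ⟨A3_T hc h3, cm_A3_tz h2 _ _⟩, ?_⟩
  show tr c • asc m δ b = asc m (T c δ) b
  rw [← asc_smulK2, tz_smul h4, asc_sub2, asc_one2, sub_zero]

theorem u_s {a u m : Oct K} (ha : a ∈ A3 F p) (hu : u ∈ A3 F p) (hm : m ∈ I)
    (h0 : tr u = 0) : cm a u * m ∈ core F p I := by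
  refine core_of (fun u => u ∈ A3 F p ∧ tr u = 0) (fun u => cm a u * m)
    (fun δ h => hI.l (A3_cm ha h.1) hm) ?_ (δ := u) ⟨hu, h0⟩
  rintro δ c ⟨h3, h4⟩ hc
  refine ⟨T c δ, ⟨A3_T hc h3, cm_A3_tz h2 _ _⟩, ?_⟩
  show tr c • (cm a δ * m) = cm a (T c δ) * m
  rw [← smul_mul_assoc, ← cm_smul, tz_smul h4, cm_sub, cm_one, sub_zero]

theorem k1 {a m x y : Oct K} (ha : a ∈ A3 F p) (hm : m ∈ I) (hx : x ∈ A3 F p)
    (hy : y ∈ A3 F p) : fK a m x y ∈ core F p I := by
  rw [fK_id]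
  refine add_mem (tz_asc h2 hI hx hy (hI.c ha hm) (tr_cm _ _)) ?_
  rw [asc_cyc m (cm x y) a]
  exact u_asc h2 hI (A3_cm hx hy) ha hm (tr_cm _ _)

end tz

/-- elements commuting and associating modulo the core -/
structure Gd (F : Type) [Field F] {K : Type} [Field K] [Algebra F K] (p : Fin 10 → K)
    (I : Submodule F (Oct K)) (w : Oct K) : Prop where
  mem : w ∈ I
  c : ∀ a ∈ A3 F p, cm a w ∈ core F p I
  a : ∀ a ∈ A3 F p, ∀ b ∈ A3 F p, asc w a b ∈ core F p I

theorem Gd_tz (h2 : (2 : K) = 0) (hI : Bim p I) {w : Oct K} (hw : w ∈ I) (h0 : tr w = 0) :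
    Gd F p I w :=
  ⟨hw, fun _ ha => tz_cm h2 hI ha hw h0, fun _ ha _ hb => tz_asc h2 hI ha hb hw h0⟩

/-- the obstruction for an element -/
def Pr (F : Type) [Field F] {K : Type} [Field K] [Algebra F K] (p : Fin 10 → K)
    (I : Submodule F (Oct K)) (w e c d : Oct K) : Prop := tr e • (cm c d * w) ∈ core F p I

theorem mem_iff_of_sub {C : Submodule F (Oct K)} {x y : Oct K} (h : x - y ∈ C) :
    x ∈ C ↔ y ∈ C := by
  constructor
  · intro hx
    have := sub_mem hx h
    rwa [sub_sub_cancel] at this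
  · intro hy
    have := add_mem h hy
    rwa [sub_add_cancel] at this

section G

variable (h2 : (2 : K) = 0) (hI : Bim p I)
include h2 hI

theorem G1 {w e c d : Oct K} (hw : w ∈ I) (he : e ∈ A3 F p) (hc : c ∈ A3 F p)
    (hd : d ∈ A3 F p) : Pr F p I w e c d ↔ tr (e * cm c d) • w ∈ core F p I := by
  unfold Pr
  have hu := A3_cm hc hd
  have e1 : tr e • (cm c d * w) = cm e (cm c d) * w - tr (e * cm c d) • w := by
    rw [← smul_mul_assoc, tz_smul (tr_cm c d), sub_mul, one_smul_mul, T_cm h2]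
  have h3 : cm e (cm c d) * w ∈ core F p I := u_s h2 hI he hu hw (tr_cm _ _)
  rw [e1]
  constructor
  · intro h
    have := sub_mem h3 h
    rwa [sub_sub_cancel] at this
  · intro h
    exact sub_mem h3 h

theorem G2 {w e c d : Oct K} (hw : Gd F p I w) (he : e ∈ A3 F p) (hc : c ∈ A3 F p)
    (hd : d ∈ A3 F p) : Pr F p I w e c d ↔ tr (d * w) • cm c e ∈ core F p I := by
  unfold Pr
  have e1 : cm c d * w = cm c (d * w) - d * cm c w + 3 • asc w c d := by
    have h := cm_mul d w c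
    rw [asc_cyc c d w, asc_cyc w c d] at h
    rw [cm_neg c (d * w), h, cm_neg c d, cm_neg c w]
    simp only [neg_mul, mul_neg]
    abel
  have hC := core_Bim hI
  have e3 : tr e • (d * w) = T e (d * w) - tr (d * w) • e +
      (tr e * tr (d * w) - tr (e * (d * w))) • one := by
    rw [T_eq]; abel
  have e2 : tr e • (cm c d * w) - (-(tr (d * w) • cm c e)) =
      cm c (T e (d * w)) - tr e • (d * cm c w) + tr e • (3 • asc w c d) := by
    rw [e1, smul_add, smul_sub, ← cm_smul, e3, cm_add, cm_sub, cm_smul, cm_one]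
    abel
  have h3 : tr e • (cm c d * w) - (-(tr (d * w) • cm c e)) ∈ core F p I := by
    rw [e2]
    refine add_mem (sub_mem ?_ ?_) ?_
    · exact tz_cm h2 hI hc (hI.t he (hI.l hd hw.mem)) (cm_A3_tz h2 _ _)
    · exact core_tr he (hC.l hd (hw.c c hc))
    · exact core_tr he (nsmul_mem (hw.a c hc d hd) 3)
  rw [mem_iff_of_sub h3]
  exact neg_mem_iff

omit h2 in
theorem G3 {w e c c' d : Oct K} (hw : Gd F p I w) (he : e ∈ A3 F p) (hc : c ∈ A3 F p)
    (hc' : c' ∈ A3 F p) (hd : d ∈ A3 F p) (h : Pr F p I w e c d) (h' : Pr F p I w e c' d) :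
    Pr F p I w e (c * c') d := by
  unfold Pr at *
  have hC := core_Bim hI
  have e1 : cm (c * c') d * w = c * (cm c' d * w) + asc c (cm c' d) w +
      ((cm c d * w) * c' - asc (cm c d) w c' + cm c d * cm c' w + asc (cm c d) c' w) +
      3 • (asc c c' d * w) := by
    rw [cm_mul, add_mul, add_mul, smul_mul_assoc]
    generalize cm c' d = u
    generalize cm c d = v
    unfold cm asc
    simp only [mul_sub]
    abel
  rw [e1]
  simp only [smul_add, smul_sub]
  refine add_mem (add_mem (add_mem ?_ ?_) (add_mem (add_mem (sub_mem ?_ ?_) ?_) ?_)) ?_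
  · rw [← mul_smul_comm]; exact hC.l hc h'
  · refine core_tr he ?_
    rw [asc_cyc w c (cm c' d)]
    exact hw.a c hc _ (A3_cm hc' hd)
  · rw [← smul_mul_assoc]; exact hC.r hc' h
  · refine core_tr he ?_
    rw [asc_swap12 w (cm c d) c']
    exact neg_mem (hw.a _ (A3_cm hc hd) c' hc')
  · exact core_tr he (hC.l (A3_cm hc hd) (hw.c c' hc'))
  · refine core_tr he ?_
    rw [asc_cyc w (cm c d) c']
    exact hw.a _ (A3_cm hc hd) c' hc'
  · refine core_tr he (nsmul_mem (DI_core hI (asc_A3 hc hc' hd) hw.mem).1 3)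

end G

end

end Pool.Agent.Helper120_Alt.R4
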