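import Pool.Agent.Helper120_Alt.R4.Cor4

set_option autoImplicit false

/-! Commutators act trivially on commutators modulo the core, in characteristic two and three
generators. -/

namespace Pool.Agent.Helper120_Alt.R4

open Pool.Agent.Helper895.Alt
open Pool.Agent.Helper120_Alt.R3 (ge cl cl_perm closureG cm cm_sub cm_add cm_neg fK_cm cm_mul)

noncomputable section

variable {F : Type} [Field F] {K : Type} [Field K] [Algebra F K] {p : Fin 10 → K}
  {I : Submodule F (Oct K)}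

theorem tr_zero' : tr (0 : Oct K) = 0 := by simp [tr, Oct.zero_def]

theorem cm_zeroL (a : Oct K) : cm (0 : Oct K) a = 0 := by unfold cm; simp

theorem cm_addL (a b c : Oct K) : cm (a + b) c = cm a c + cm b c := by
  unfold cm; simp only [mul_add, add_mul]; abel

theorem cm_smulFL (r : F) (a b : Oct K) : cm (r • a) b = r • cm a b := by
  unfold cm; rw [mul_smul_comm, smul_mul_assoc, smul_sub]

/-- induction over the generated algebra -/
theorem A3_ind (Q : Oct K → Prop) (h0 : Q 0) (ha : ∀ x y, Q x → Q y → Q (x + y))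
    (hs : ∀ (r : F) x, Q x → Q (r • x)) (hl : ∀ i, Q (fm p i))
    (hm : ∀ x ∈ A3 F p, ∀ y ∈ A3 F p, Q x → Q y → Q (x * y)) : ∀ x ∈ A3 F p, Q x := by
  rintro _ ⟨g, rfl⟩
  show Q (ph F p g)
  induction g using MonoidAlgebra.induction_linear with
  | zero => rw [map_zero]; exact h0
  | add a b ha' hb' => rw [map_add]; exact ha _ _ ha' hb'
  | single m r =>
    have e : (MonoidAlgebra.single m r : NA F (Fin 3)) = r • MonoidAlgebra.single m 1 := by simp
    rw [e, map_smul]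
    apply hs
    clear e
    induction m with
    | ih1 i =>
      have h3 := hl i
      rw [← ph_ge (F := F) p i] at h3
      exact h3
    | ih2 x y hx hy =>
      have e : (MonoidAlgebra.single (x * y) 1 : NA F (Fin 3)) =
          MonoidAlgebra.single x 1 * MonoidAlgebra.single y 1 := by
        rw [MonoidAlgebra.single_mul_single, one_mul]
      rw [e, map_mul]
      exact hm _ (ph_A3 _) _ (ph_A3 _) hx hy

theorem Pr_cc (w e c : Oct K) : Pr F p I w e c c := by
  unfold Pr; rw [cm_self, zero_mul, smul_zero]; exact zero_mem _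

theorem Pr_23 {w e c d : Oct K} (h : Pr F p I w e c d) : Pr F p I w e d c := by
  unfold Pr at *
  rw [cm_neg, neg_mul, smul_neg]
  exact neg_mem h

section G

variable (h2 : (2 : K) = 0) (hI : Bim p I)
include h2 hI

theorem Pr_12 {w e c d : Oct K} (hw : Gd F p I w) (he : e ∈ A3 F p) (hc : c ∈ A3 F p)
    (hd : d ∈ A3 F p) (h : Pr F p I w e c d) : Pr F p I w c e d := by
  rw [G2 h2 hI hw he hc hd] at h
  rw [G2 h2 hI hw hc he hd, cm_neg, smul_neg]
  exact neg_mem h

theorem Pr_ee {w e d : Oct K} (hw : Gd F p I w) (he : e ∈ A3 F p)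
    (hd : d ∈ A3 F p) : Pr F p I w e e d := by
  rw [G2 h2 hI hw he he hd, cm_self, smul_zero]
  exact zero_mem _

omit h2 in
theorem Pr_ext {w e d : Oct K} (hw : Gd F p I w) (he : e ∈ A3 F p)
    (hd : d ∈ A3 F p) (h : ∀ i, Pr F p I w e (fm p i) d) : ∀ c ∈ A3 F p, Pr F p I w e c d := by
  refine A3_ind (F := F) _ ?_ ?_ ?_ h ?_
  · unfold Pr; rw [cm_zeroL, zero_mul, smul_zero]; exact zero_mem _
  · intro x y hx hy
    unfold Pr at *
    rw [cm_addL, add_mul, smul_add]; exact add_mem hx hy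
  · intro r x hx
    unfold Pr at *
    rw [cm_smulFL, smul_mul_assoc, smul_comm]
    exact Submodule.smul_mem _ _ hx
  · intro x hx y hy h1 h3
    exact G3 hI hw he hx hy hd h1 h3

theorem Pr_letters {w : Oct K} (hw : Gd F p I w)
    (h : Pr F p I w (fm p 0) (fm p 1) (fm p 2)) (i j k : Fin 3) :
    Pr F p I w (fm p i) (fm p j) (fm p k) := by
  have hA := fun i => fm_A3 (F := F) (p := p) i
  have s12 : ∀ {i j k : Fin 3}, Pr F p I w (fm p i) (fm p j) (fm p k) →
      Pr F p I w (fm p j) (fm p i) (fm p k) := fun h => Pr_12 h2 hI hw (hA _) (hA _) (hA _) h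
  have s23 : ∀ {i j k : Fin 3}, Pr F p I w (fm p i) (fm p j) (fm p k) →
      Pr F p I w (fm p i) (fm p k) (fm p j) := fun h => Pr_23 h
  by_cases hjk : j = k
  · rw [hjk]; exact Pr_cc _ _ _
  by_cases hij : i = j
  · rw [hij]; exact Pr_ee h2 hI hw (hA _) (hA _)
  by_cases hik : i = k
  · rw [hik]; exact s23 (Pr_ee h2 hI hw (hA _) (hA _))
  fin_cases i <;> fin_cases j <;> fin_cases k <;>
    first
    | exact absurd rfl hjk
    | exact absurd rfl hij
    | exact absurd rfl hik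
    | exact h
    | exact s23 h
    | exact s12 h
    | exact s12 (s23 h)
    | exact s23 (s12 h)
    | exact s12 (s23 (s12 h))

theorem Pr_all {w : Oct K} (hw : Gd F p I w)
    (h : Pr F p I w (fm p 0) (fm p 1) (fm p 2)) {e c d : Oct K} (he : e ∈ A3 F p)
    (hc : c ∈ A3 F p) (hd : d ∈ A3 F p) : Pr F p I w e c d := by
  have hA := fun i => fm_A3 (F := F) (p := p) i
  have h0 := Pr_letters h2 hI hw h
  -- one general argument
  have h1 : ∀ i k, ∀ c ∈ A3 F p, Pr F p I w (fm p i) c (fm p k) := fun i k =>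
    Pr_ext hI hw (hA i) (hA k) fun j => h0 i j k
  -- two general arguments
  have h3 : ∀ k, ∀ c ∈ A3 F p, ∀ c' ∈ A3 F p, Pr F p I w c c' (fm p k) := fun k c hc =>
    Pr_ext hI hw hc (hA k) fun j => Pr_12 h2 hI hw (hA j) hc (hA k) (h1 j k c hc)
  -- three general arguments
  exact Pr_ext hI hw he hd (fun j => Pr_23 (h3 j e he d hd)) c hc

/-- families with alternating traces -/
theorem Pr_fam (W : Oct K → Oct K) (hW : ∀ a ∈ A3 F p, Gd F p I (W a))
    (h1 : ∀ a d, tr (d * W a) = -tr (a * W d)) (h0 : ∀ a, tr (a * W a) = 0)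
    {a e c d : Oct K} (ha : a ∈ A3 F p) (he : e ∈ A3 F p)
    (hc : c ∈ A3 F p) (hd : d ∈ A3 F p) : Pr F p I (W a) e c d := by
  have hA := fun i => fm_A3 (F := F) (p := p) i
  -- letters
  have s0 : ∀ (i : Fin 3) (x y : Fin 3), Pr F p I (W (fm p i)) (fm p x) (fm p y) (fm p i) := by
    intro i x y
    rw [G2 h2 hI (hW _ (hA i)) (hA x) (hA y) (hA i), h0, zero_smul]
    exact zero_mem _
  have s1 : ∀ i : Fin 3, Pr F p I (W (fm p i)) (fm p 0) (fm p 1) (fm p 2) := by
    intro i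
    have hw := hW _ (hA i)
    fin_cases i
    · exact Pr_12 h2 hI hw (hA _) (hA _) (hA _) (Pr_23 (s0 0 1 2))
    · exact Pr_23 (s0 1 0 2)
    · exact s0 2 0 1
  have s2 : Pr F p I (W a) (fm p 0) (fm p 1) (fm p 2) := by
    rw [G2 h2 hI (hW a ha) (hA _) (hA _) (hA _), h1, neg_smul, neg_mem_iff,
      ← G2 h2 hI (hW _ (hA 2)) (hA _) (hA _) ha]
    exact Pr_all h2 hI (hW _ (hA 2)) (s1 2) (hA _) (hA _) ha
  exact Pr_all h2 hI (hW a ha) s2 he hc hd

theorem fam_core (W : Oct K → Oct K) (hW : ∀ a ∈ A3 F p, Gd F p I (W a))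
    (h1 : ∀ a d, tr (d * W a) = -tr (a * W d)) (h0 : ∀ a, tr (a * W a) = 0)
    {a c d : Oct K} (ha : a ∈ A3 F p)
    (hc : c ∈ A3 F p) (hd : d ∈ A3 F p) : cm c d * W a ∈ core F p I :=
  mem_core_step (hI.l (A3_cm hc hd) (hW a ha).mem) fun _ he =>
    Pr_fam h2 hI W hW h1 h0 ha he hc hd

omit h2 hI in
theorem tr_cm_swap (a d m : Oct K) : tr (d * cm a m) = -tr (a * cm d m) := by
  unfold cm
  rw [mul_sub, mul_sub, tr_sub, tr_sub, ← tr_assoc d m a, tr_comm (d * m) a,
    ← tr_assoc a m d, tr_comm (a * m) d]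
  ring

theorem s_cm {a m c d : Oct K} (ha : a ∈ A3 F p) (hm : m ∈ I) (hc : c ∈ A3 F p)
    (hd : d ∈ A3 F p) : cm c d * cm a m ∈ core F p I := by
  refine fam_core h2 hI (fun a => cm a m) (fun a ha => Gd_tz h2 hI (hI.c ha hm) (tr_cm _ _))
    (fun a d => tr_cm_swap a d m) (fun a => ?_) ha hc hd
  show tr (a * cm a m) = 0
  unfold cm
  rw [mul_sub, tr_sub, ← tr_assoc a m a, tr_comm (a * m) a, sub_self]

theorem s_asc {a b m c d : Oct K} (ha : a ∈ A3 F p) (hb : b ∈ A3 F p) (hm : m ∈ I)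
    (hc : c ∈ A3 F p) (hd : d ∈ A3 F p) : cm c d * asc m a b ∈ core F p I := by
  refine fam_core h2 hI (fun a => asc m a b) (fun a ha => Gd_tz h2 hI (hI.a ha hb hm)
    (tr_asc _ _ _)) (fun a d => ?_) (fun a => ?_) ha hc hd
  · show tr (d * asc m a b) = -tr (a * asc m d b)
    rw [← asc_cyc m a b, ← asc_cyc m d b]
    exact tr_asc_swap d a b m
  · show tr (a * asc m a b) = 0
    rw [← asc_cyc m a b]
    unfold asc
    rw [mul_sub, tr_sub, ← tr_assoc a (a * b) m, ← tr_assoc a a (b * m), ← tr_assoc (a * a) b m,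
      ← AltRing.altl a b, sub_self]

/-- commutator multiples are good -/
theorem Gd_s {a b m : Oct K} (ha : a ∈ A3 F p) (hb : b ∈ A3 F p) (hm : m ∈ I) :
    Gd F p I (cm a b * m) := by
  have hu := A3_cm ha hb
  have hC := core_Bim hI
  refine ⟨hI.l hu hm, fun c hc => ?_, fun c hc d hd => ?_⟩
  · rw [cm_neg, cm_mul, cm_neg m c, cm_neg (cm a b) c, asc_swap12 m (cm a b) c]
    simp only [mul_neg, neg_mul, smul_neg]
    refine neg_mem (add_mem (add_mem (neg_mem ?_) (neg_mem ?_)) (neg_mem (nsmul_mem ?_ 3)))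
    · exact s_cm h2 hI hc hm ha hb
    · exact u_s h2 hI hc hu hm (tr_cm _ _)
    · exact u_asc h2 hI hu hc hm (tr_cm _ _)
  · rw [asc_mul]
    refine add_mem (add_mem (k1 h2 hI hu hm hc hd) (DI_core hI (asc_A3 hu hc hd) hm).2) ?_
    have e : asc m c d * cm a b = cm a b * asc m c d - cm (cm a b) (asc m c d) := by
      generalize cm a b = u
      unfold cm; abel
    rw [e]
    exact sub_mem (s_asc h2 hI hc hd hm ha hb) (u_cm h2 hI hu (hI.a hc hd hm) (tr_cm _ _))

theorem Pr_s {a b m e c d : Oct K} (ha : a ∈ A3 F p) (hb : b ∈ A3 F p) (hm : m ∈ I)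
    (he : e ∈ A3 F p) (hc : c ∈ A3 F p) (hd : d ∈ A3 F p)
    (h : Pr F p I (cm c d * m) e a b) : Pr F p I (cm a b * m) e c d := by
  rw [G1 h2 hI (hI.l (A3_cm hc hd) hm) he ha hb] at h
  unfold Pr
  have hu := A3_cm ha hb
  have e1 : tr e • (cm c d * (cm a b * m)) = cm c d * (cm e (cm a b) * m) -
      tr (e * cm a b) • (cm c d * m) := by
    rw [← mul_smul_comm, ← smul_mul_assoc, tz_smul (tr_cm a b), sub_mul, one_smul_mul, mul_sub,
      mul_smul_comm, T_cm h2]
  rw [e1]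
  exact sub_mem ((core_Bim hI).l (A3_cm hc hd) (u_s h2 hI he hu hm (tr_cm _ _))) h

theorem s_s {a b m c d : Oct K} (ha : a ∈ A3 F p) (hb : b ∈ A3 F p) (hm : m ∈ I)
    (hc : c ∈ A3 F p) (hd : d ∈ A3 F p) : cm c d * (cm a b * m) ∈ core F p I := by
  have hA := fun i => fm_A3 (F := F) (p := p) i
  have hG := fun {a b : Oct K} (ha : a ∈ A3 F p) (hb : b ∈ A3 F p) => Gd_s h2 hI ha hb hm
  -- letters: the first argument equal to the first letter of the commutator
  have s0 : ∀ i j x y : Fin 3, Pr F p I (cm (fm p i) (fm p j) * m) (fm p i) (fm p x)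
      (fm p y) := by
    intro i j x y
    apply Pr_s h2 hI (hA i) (hA j) hm (hA i) (hA x) (hA y)
    exact Pr_ee h2 hI (hG (hA x) (hA y)) (hA i) (hA j)
  have s1 : Pr F p I (cm (fm p 1) (fm p 2) * m) (fm p 0) (fm p 1) (fm p 2) :=
    Pr_12 h2 hI (hG (hA 1) (hA 2)) (hA _) (hA _) (hA _) (s0 1 2 0 2)
  have s2 : Pr F p I (cm a b * m) (fm p 0) (fm p 1) (fm p 2) :=
    Pr_s h2 hI ha hb hm (hA 0) (hA 1) (hA 2)
      (Pr_all h2 hI (hG (hA 1) (hA 2)) s1 (hA 0) ha hb)
  exact mem_core_step (hI.l (A3_cm hc hd) (hI.l (A3_cm ha hb) hm)) fun e he =>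
    Pr_all h2 hI (hG ha hb) s2 he hc hd

end G

end

end Pool.Agent.Helper120_Alt.R4
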