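import Pool.Agent.Helper120_Alt.R4.Spn3
import Pool.Agent.Helper120_Alt.R3.Elm3

set_option autoImplicit false

/-! Elimination: leading indices of a finitely generated bimodule. -/

namespace Pool.Agent.Helper120_Alt.R4

open Pool.Agent.Helper895.Alt
open Pool.Agent.Helper120_Alt.R3 (ge cl cl_perm closureG cm cm_sub cm_add cm_neg fK_cm cm_mul
  IxE keyE keyE_inj keyE_shiftL keyE_shiftX keyE_base LI LI_iff LI_op LI_elim LI_shift BS dickson
  dickson2)

noncomputable section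

variable {F : Type} [Field F] {K : Type} [Field K] [Algebra F K] {p : Fin 10 → K}

/-- the multiples of the generators -/
def vE (F : Type) [Field F] {K : Type} [Field K] [Algebra F K] (p : Fin 10 → K) {k : ℕ}
    (g : Fin k → Oct K) (x : IxE k) : Oct K := mon p x.2.1 • Lw F p (cl x.2.2) (g x.1)

/-- the span of all multiples -/
def VE (F : Type) [Field F] {K : Type} [Field K] [Algebra F K] (p : Fin 10 → K)
    (C : Submodule F (Oct K)) {k : ℕ} (g : Fin k → Oct K) : Submodule F (Oct K) :=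
  C ⊔ Submodule.span F (Set.range (vE F p g))

theorem mon_zero : mon p 0 = 1 := by simp [mon]

theorem VE_PC {C : Submodule F (Oct K)} (hC : PC p C) {k : ℕ} (g : Fin k → Oct K) :
    PC p (VE F p C g) := by
  intro i x hx
  obtain ⟨y, hy, z, hz, rfl⟩ := Submodule.mem_sup.mp hx
  rw [smul_add]
  apply add_mem
  · exact Submodule.mem_sup_left (hC i y hy)
  · clear hx
    induction hz using Submodule.span_induction with
    | mem x hx =>
      obtain ⟨⟨s, α, β⟩, rfl⟩ := hx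
      apply Submodule.mem_sup_right
      apply Submodule.subset_span
      refine ⟨(s, α + Pi.single i 1, β), ?_⟩
      show mon p (α + Pi.single i 1) • _ = iv p i • mon p α • _
      rw [← mon_add, mul_smul]
    | zero => rw [smul_zero]; exact zero_mem _
    | add x y _ _ hx hy => rw [smul_add]; exact add_mem hx hy
    | smul a x _ hx => rw [smul_comm]; exact Submodule.smul_mem _ _ hx

section E

variable {C N : Submodule F (Oct K)} {k : ℕ} {g : Fin k → Oct K}

theorem opL (hPC : PC p C) (hCN : C ≤ N)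
    (htri : ∀ (s : Fin k) (β : Fin 3 → ℕ) (l : Fin 3),
        fm p l * Lw F p (cl β) (g s) - Lw F p (cl (β + Pi.single l 1)) (g s) ∈
          C ⊔ Submodule.span F (Set.range fun x : {x : Fin k × (Fin 3 → ℕ) // x.1 < s} =>
            Lw F p (cl x.1.2) (g x.1.1)))
    (l : Fin 3) (x : IxE k) :
    LinearMap.mulLeft F (fm p l) (vE F p g x) - vE F p g (x.1, x.2.1, x.2.2 + Pi.single l 1) ∈
      Submodule.span F (vE F p g '' {y | keyE y < keyE (x.1, x.2.1, x.2.2 + Pi.single l 1)}) ⊔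
        N := by
  obtain ⟨s, α, β⟩ := x
  obtain ⟨c, hc, z, hz, e⟩ := Submodule.mem_sup.mp (htri s β l)
  have e2 : LinearMap.mulLeft F (fm p l) (vE F p g (s, α, β)) -
      vE F p g (s, α, β + Pi.single l 1) = mon p α • z + mon p α • c := by
    show fm p l * (mon p α • Lw F p (cl β) (g s)) - mon p α • _ = _
    rw [mul_smul_comm, ← smul_sub, ← smul_add, add_comm z c, e]
  rw [e2]
  apply Submodule.add_mem_sup
  · have h1 : ∀ z ∈ Submodule.span F (Set.range fun x : {x : Fin k × (Fin 3 → ℕ) // x.1 < s} =>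
            Lw F p (cl x.1.2) (g x.1.1)), mon p α • z ∈ Submodule.span F (vE F p g ''
            {y | keyE y < keyE (s, α, β + Pi.single l 1)}) := by
      intro z hz
      induction hz using Submodule.span_induction with
      | mem x hx =>
        obtain ⟨⟨⟨s', β'⟩, h⟩, rfl⟩ := hx
        apply Submodule.subset_span
        refine ⟨(s', α, β'), ?_, rfl⟩
        apply Prod.Lex.toLex_lt_toLex.mpr
        refine Or.inr ⟨rfl, Prod.Lex.toLex_lt_toLex.mpr (Or.inl h)⟩
      | zero => rw [smul_zero]; exact zero_mem _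
      | add x y _ _ hx hy => rw [smul_add]; exact add_mem hx hy
      | smul a x _ hx => rw [smul_comm]; exact Submodule.smul_mem _ _ hx
    exact h1 z hz
  · exact hCN (hPC.mon α hc)

/-- a basis of the span of the multiples modulo the bimodule -/
theorem bas_E (hPC : PC p C) (hL : ∀ l, ∀ x ∈ C, fm p l * x ∈ C)
    (hNL : ∀ l, ∀ x ∈ N, fm p l * x ∈ N) (hCN : C ≤ N)
    (hN : N ≤ C ⊔ Submodule.span F (Set.range fun x : Fin k × (Fin 3 → ℕ) =>
      Lw F p (cl x.2) (g x.1)))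
    (htri : ∀ (s : Fin k) (β : Fin 3 → ℕ) (l : Fin 3),
        fm p l * Lw F p (cl β) (g s) - Lw F p (cl (β + Pi.single l 1)) (g s) ∈
          C ⊔ Submodule.span F (Set.range fun x : {x : Fin k × (Fin 3 → ℕ) // x.1 < s} =>
            Lw F p (cl x.1.2) (g x.1.1))) :
    ∃ (SN : Finset (Fin k × (Fin 3 → ℕ))) (SC : Finset (IxE k)),
      BS (VE F p C g) N (vE F p g)
        {x | (x.2.1 = 0 → ∀ y ∈ SN, ¬ (y.1 = x.1 ∧ y.2 ≤ x.2.2)) ∧
          (x.2.1 ≠ 0 → ∀ y ∈ SC, ¬ (y.1 = x.1 ∧ y.2 ≤ x.2))} := by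
  classical
  let r : (Lex (Fin 10 → ℕ) ×ₗ (Fin k ×ₗ Lex (Fin 3 → ℕ))) → _ → Prop := (· < ·)
  have hNV : N ≤ VE F p C g := by
    refine hN.trans (sup_le_sup_left ?_ _)
    rw [Submodule.span_le]
    rintro _ ⟨⟨s, β⟩, rfl⟩
    apply Submodule.subset_span
    refine ⟨(s, 0, β), ?_⟩
    show mon p 0 • Lw F p (cl β) (g s) = _
    rw [mon_zero, one_smul]
  have hB : BS (VE F p C g) N (vE F p g) (LI r keyE (vE F p g) N)ᶜ := by
    apply R3.BS.of_LI r keyE wellFounded_lt keyE_inj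
    · intro i; exact Submodule.mem_sup_right (Submodule.subset_span ⟨i, rfl⟩)
    · exact hNV
    · exact sup_le (hCN.trans le_sup_right) le_sup_left
  have sL : ∀ (N' : Submodule F (Oct K)), C ≤ N' → (∀ l, ∀ x ∈ N', fm p l * x ∈ N') →
      ∀ (l : Fin 3) (x : IxE k), x ∈ LI r keyE (vE F p g) N' →
      (x.1, x.2.1, x.2.2 + Pi.single l 1) ∈ LI r keyE (vE F p g) N' := by
    intro N' h1 h3 l x hx
    exact LI_op r keyE (LinearMap.mulLeft F (fm p l)) (h3 l)
      (fun x : IxE k => (x.1, x.2.1, x.2.2 + Pi.single l 1)) (keyE_shiftL l)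
      (opL hPC h1 htri l) hx
  have sX : ∀ (i : Fin 10) (x : IxE k), x ∈ LI r keyE (vE F p g) C →
      (x.1, x.2.1 + Pi.single i 1, x.2.2) ∈ LI r keyE (vE F p g) C := by
    intro i x hx
    refine LI_op r keyE (LinearMap.lsmul K (Oct K) (iv p i) |>.restrictScalars F) (hPC i)
      (fun x : IxE k => (x.1, x.2.1 + Pi.single i 1, x.2.2)) (keyE_shiftX i) ?_ hx
    intro x
    have e : (LinearMap.lsmul K (Oct K) (iv p i) |>.restrictScalars F) (vE F p g x) =
        vE F p g (x.1, x.2.1 + Pi.single i 1, x.2.2) := by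
      show iv p i • (mon p x.2.1 • Lw F p (cl x.2.2) (g x.1)) =
        mon p (x.2.1 + Pi.single i 1) • Lw F p (cl x.2.2) (g x.1)
      rw [← mon_add, mul_smul]
    rw [e, sub_self]; exact zero_mem _
  have hSN : ∀ s : Fin k, ∃ S : Finset (Fin 3 → ℕ), ∀ β : Fin 3 → ℕ,
      (s, 0, β) ∈ LI r keyE (vE F p g) N ↔ ∃ y ∈ S, y ≤ β := by
    intro s
    exact dickson {β | (s, 0, β) ∈ LI r keyE (vE F p g) N}
      (fun β hβ l => sL N hCN hNL l (s, 0, β) hβ)
  have hSC : ∀ s : Fin k, ∃ S : Finset ((Fin 10 → ℕ) × (Fin 3 → ℕ)),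
      ∀ x : (Fin 10 → ℕ) × (Fin 3 → ℕ),
      (s, x) ∈ LI r keyE (vE F p g) C ↔ ∃ y ∈ S, y ≤ x := by
    intro s
    exact dickson2 {x | (s, x) ∈ LI r keyE (vE F p g) C}
      (fun x hx i => sX i (s, x) hx) (fun x hx i => sL C le_rfl hL i (s, x) hx)
  choose SN hSN using hSN
  choose SC hSC using hSC
  refine ⟨Finset.univ.biUnion fun s => (SN s).image fun β => (s, β),
    Finset.univ.biUnion fun s => (SC s).image fun β => (s, β), ?_⟩
  have mN : ∀ (s : Fin k) (β : Fin 3 → ℕ), (∀ y ∈ (Finset.univ.biUnion fun s =>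
      (SN s).image fun β => (s, β)), ¬ (y.1 = s ∧ y.2 ≤ β)) ↔
      (s, 0, β) ∉ LI r keyE (vE F p g) N := by
    intro s β
    rw [hSN s β]
    constructor
    · rintro h ⟨y, hy, hle⟩
      refine h (s, y) ?_ ⟨rfl, hle⟩
      simp only [Finset.mem_biUnion, Finset.mem_univ, true_and, Finset.mem_image]
      exact ⟨s, y, hy, rfl⟩
    · rintro h ⟨s', y⟩ hy ⟨h3, h4⟩
      simp only at h3 h4
      subst h3
      simp only [Finset.mem_biUnion, Finset.mem_univ, true_and, Finset.mem_image,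
        Prod.mk.injEq] at hy
      obtain ⟨s'', y', hy', h5, h6⟩ := hy
      subst h5
      subst h6
      exact h ⟨y', hy', h4⟩
  have mC : ∀ (s : Fin k) (β : (Fin 10 → ℕ) × (Fin 3 → ℕ)), (∀ y ∈ (Finset.univ.biUnion fun s =>
      (SC s).image fun β => (s, β)), ¬ (y.1 = s ∧ y.2 ≤ β)) ↔
      (s, β) ∉ LI r keyE (vE F p g) C := by
    intro s β
    rw [hSC s β]
    constructor
    · rintro h ⟨y, hy, hle⟩
      refine h (s, y) ?_ ⟨rfl, hle⟩
      simp only [Finset.mem_biUnion, Finset.mem_univ, true_and, Finset.mem_image]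
      exact ⟨s, y, hy, rfl⟩
    · rintro h ⟨s', y⟩ hy ⟨h3, h4⟩
      simp only at h3 h4
      subst h3
      simp only [Finset.mem_biUnion, Finset.mem_univ, true_and, Finset.mem_image,
        Prod.mk.injEq] at hy
      obtain ⟨s'', y', hy', h5, h6⟩ := hy
      subst h5
      subst h6
      exact h ⟨y', hy', h4⟩
  have hel : ∀ x : IxE k, x.2.1 ≠ 0 → (x ∈ LI r keyE (vE F p g) N ↔
      x ∈ LI r keyE (vE F p g) C) := by
    intro x hx
    refine LI_elim r keyE hCN {y | y.2.1 = 0} ?_ (fun y hy => keyE_base hy hx)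
    refine hN.trans (sup_le_sup_left ?_ _)
    rw [Submodule.span_le]
    rintro _ ⟨⟨s, β⟩, rfl⟩
    apply Submodule.subset_span
    refine ⟨(s, 0, β), rfl, ?_⟩
    show mon p 0 • Lw F p (cl β) (g s) = _
    rw [mon_zero, one_smul]
  have hset : {x : IxE k | (x.2.1 = 0 → ∀ y ∈ (Finset.univ.biUnion fun s =>
      (SN s).image fun β => (s, β)), ¬ (y.1 = x.1 ∧ y.2 ≤ x.2.2)) ∧
          (x.2.1 ≠ 0 → ∀ y ∈ (Finset.univ.biUnion fun s =>
      (SC s).image fun β => (s, β)), ¬ (y.1 = x.1 ∧ y.2 ≤ x.2))} =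
      (LI r keyE (vE F p g) N)ᶜ := by
    ext ⟨s, α, β⟩
    rw [Set.mem_ofPred_eq, Set.mem_compl_iff]
    by_cases h : α = 0
    · subst h
      simp only [forall_const, ne_eq, not_true_eq_false, false_implies, and_true]
      exact mN s β
    · simp only [h, false_implies, true_and, ne_eq, not_false_eq_true, forall_const]
      rw [mC s (α, β), hel (s, α, β) h]
  rw [hset]
  exact hB

end E

/-- the layer above a bimodule closed under the invariants -/
theorem bas_PC {N : Submodule F (Oct K)} (hPC : PC p N) (hN : N ≤ D3 F p) :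
    ∃ S : Finset (Fin 8 × (Fin 10 → ℕ)),
    BS (D3 F p) N (fun x : Fin 8 × (Fin 10 → ℕ) => mon p x.2 • dd p x.1)
      {x | ∀ y ∈ S, ¬ (y.1 = x.1 ∧ y.2 ≤ x.2)} := by
  let v : Fin 8 × (Fin 10 → ℕ) → Oct K := fun x => mon p x.2 • dd p x.1
  let key2 : Fin 8 × (Fin 10 → ℕ) → Fin 8 ×ₗ Lex (Fin 10 → ℕ) := fun x => toLex (x.1, toLex x.2)
  have key2_inj : Function.Injective key2 := by
    rintro ⟨a, b⟩ ⟨c, d⟩ h
    simp only [key2, EmbeddingLike.apply_eq_iff_eq, Prod.mk.injEq] at h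
    rw [h.1, h.2]
  let r : (Fin 8 ×ₗ Lex (Fin 10 → ℕ)) → (Fin 8 ×ₗ Lex (Fin 10 → ℕ)) → Prop := (· < ·)
  have hsh : ∀ (i : Fin 10) (x : Fin 8 × (Fin 10 → ℕ)), x ∈ LI r key2 v N →
      (x.1, x.2 + Pi.single i 1) ∈ LI r key2 v N := by
    intro i x hx
    refine LI_shift r key2 (fun x : Fin 8 × (Fin 10 → ℕ) => (x.1, x.2 + Pi.single i 1)) ?_ ?_ ?_ hx
    · rintro ⟨a, b⟩ ⟨c, d⟩ h
      simp only [Prod.mk.injEq, add_left_inj] at h
      rw [h.1, h.2]
    · rintro ⟨a, b⟩ ⟨c, d⟩ h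
      rcases (Prod.Lex.toLex_lt_toLex.mp h) with h | ⟨h, h'⟩
      · exact Prod.Lex.toLex_lt_toLex.mpr (Or.inl h)
      · refine Prod.Lex.toLex_lt_toLex.mpr (Or.inr ⟨h, ?_⟩)
        exact add_lt_add_left h' (toLex (Pi.single i 1))
    · intro c hc
      have e : (c.sum fun x a => a • v (x.1, x.2 + Pi.single i 1)) =
          iv p i • (c.sum fun x a => a • v x) := by
        rw [Finsupp.sum, Finsupp.sum, Finset.smul_sum]
        refine Finset.sum_congr rfl fun x _ => ?_
        show c x • mon p (x.2 + Pi.single i 1) • dd p x.1 = iv p i • c x • mon p x.2 • dd p x.1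
        rw [← mon_add, mul_smul, ← smul_comm (c x) (iv p i)]
      rw [e]
      exact hPC i _ hc
  have hU : ∀ s : Fin 8, ∃ S : Finset (Fin 10 → ℕ), ∀ α : Fin 10 → ℕ,
      (s, α) ∈ LI r key2 v N ↔ ∃ β ∈ S, β ≤ α := by
    intro s
    exact dickson {α | (s, α) ∈ LI r key2 v N} (fun α hα i => hsh i (s, α) hα)
  choose S hS using hU
  classical
  refine ⟨Finset.univ.biUnion fun s => (S s).image fun β => (s, β), ?_⟩
  have h1 : {x : Fin 8 × (Fin 10 → ℕ) | ∀ y ∈ (Finset.univ.biUnion fun s => (S s).image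
      fun β => (s, β)), ¬ (y.1 = x.1 ∧ y.2 ≤ x.2)} = (LI r key2 v N)ᶜ := by
    ext ⟨s, α⟩
    rw [Set.mem_compl_iff, hS s α, Set.mem_ofPred_eq]
    constructor
    · rintro h ⟨β, hβ, hle⟩
      refine h (s, β) ?_ ⟨rfl, hle⟩
      simp only [Finset.mem_biUnion, Finset.mem_univ, true_and, Finset.mem_image]
      exact ⟨s, β, hβ, rfl⟩
    · rintro h ⟨s', β⟩ hy ⟨h3, h4⟩
      simp only at h3 h4
      subst h3
      simp only [Finset.mem_biUnion, Finset.mem_univ, true_and, Finset.mem_image,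
        Prod.mk.injEq] at hy
      obtain ⟨s'', β', hβ', h5, h6⟩ := hy
      subst h5
      subst h6
      exact h ⟨β', hβ', h4⟩
  rw [h1]
  apply R3.BS.of_LI r key2 wellFounded_lt key2_inj
  · intro x; exact Submodule.subset_span ⟨x, rfl⟩
  · exact hN
  · exact le_sup_left

/-- the layer of the scalar element -/
theorem bas_sh {f : NA F (Fin 3)} {N : Submodule F (Oct K)} (hN : Bim p N)
    (hFF : FF p f ≤ N) : ∃ S : Finset (Fin 3 → ℕ),
    BS (N ⊔ KK p f) N (fun β : Fin 3 → ℕ => Lw F p (cl β) (sh p f))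
      {x | ∀ y ∈ S, ¬ (y ≤ x)} := by
  let v : (Fin 3 → ℕ) → Oct K := fun β => Lw F p (cl β) (sh p f)
  let r : Lex (Fin 3 → ℕ) → Lex (Fin 3 → ℕ) → Prop := (· < ·)
  have hsh : ∀ (i : Fin 3) (x : Fin 3 → ℕ), x ∈ LI r toLex v N →
      x + Pi.single i 1 ∈ LI r toLex v N := by
    intro i x hx
    refine LI_op r toLex (LinearMap.mulLeft F (fm p i)) ?_
      (fun x : Fin 3 → ℕ => x + Pi.single i 1) ?_ ?_ hx
    · intro x hx
      exact hN.l (fm_A3 i) hx
    · intro a b h
      exact add_lt_add_left h (toLex (Pi.single i 1))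
    · intro β
      apply Submodule.mem_sup_right
      exact hFF (F1_le_FF p f (sh_shift i β))
  obtain ⟨S, hS⟩ := dickson {α | α ∈ LI r toLex v N} (fun α hα i => hsh i α hα)
  refine ⟨S, ?_⟩
  have h1 : {x : Fin 3 → ℕ | ∀ y ∈ S, ¬ (y ≤ x)} = (LI r toLex v N)ᶜ := by
    ext α
    have := hS α
    rw [Set.mem_ofPred_eq] at this
    rw [Set.mem_compl_iff, this, Set.mem_ofPred_eq]
    push Not
    rfl
  rw [h1]
  apply R3.BS.of_LI r toLex wellFounded_lt toLex.injective
  · intro β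
    exact Submodule.mem_sup_right (I_Lw (gen_Bim p _ : Bim p (KK p f)) _
      (subset_gen p (Or.inr rfl)))
  · exact le_sup_left
  · exact sup_le le_sup_right (KK_span.trans (sup_le_sup_left hFF _))

end

end Pool.Agent.Helper120_Alt.R4
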