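import Pool.Agent.Helper120_Alt.R4.Oct3

set_option autoImplicit false

/-! A triple of octonions whose ten invariants are algebraically independent, in any
characteristic. -/

namespace Pool.Agent.Helper120_Alt.R4

open Pool.Agent.Helper895.Alt

noncomputable section

section polys

variable {R : Type} [CommRing R]

/-- first polynomial that must not vanish -/
def pA (X : Fin 10 → R) : R := X 0 * X 0 - (1 + 1 + 1 + 1) * X 3

/-- second polynomial that must not vanish -/
def pB (X : Fin 10 → R) : R := X 0 * X 1 * X 6 - X 3 * X 1 * X 1 - X 6 * X 6 - X 4 * pA X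

/-- auxiliary polynomial -/
def pE (X : Fin 10 → R) : R :=
  X 0 * X 1 * X 7 + X 0 * X 2 * X 6 - (1 + 1) * X 3 * X 1 * X 2 - (1 + 1) * X 6 * X 7 -
    pA X * X 8

/-- auxiliary polynomial -/
def pH (X : Fin 10 → R) : R :=
  (X 0 * X 0 - (1 + 1) * X 3) * X 1 * X 7 - X 0 * X 1 * X 2 * X 3 - X 0 * X 6 * X 7 +
    (1 + 1) * X 2 * X 3 * X 6 - pA X * X 9

/-- third polynomial that must not vanish -/
def pC (X : Fin 10 → R) : R :=
  pB X * (X 0 * X 2 * X 7 - X 3 * X 2 * X 2 - X 7 * X 7 - pA X * X 5) * pA X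
    - X 0 * pE X * pH X + X 3 * pE X * pE X + pH X * pH X

variable {S : Type} [CommRing S] (g : R →+* S)

theorem map_pA (X : Fin 10 → R) : pA (fun i => g (X i)) = g (pA X) := by
  simp [pA]

theorem map_pB (X : Fin 10 → R) : pB (fun i => g (X i)) = g (pB X) := by
  simp [pB, map_pA]

theorem map_pE (X : Fin 10 → R) : pE (fun i => g (X i)) = g (pE X) := by
  simp [pE, map_pA]

theorem map_pH (X : Fin 10 → R) : pH (fun i => g (X i)) = g (pH X) := by
  simp [pH, map_pA]

theorem map_pC (X : Fin 10 → R) : pC (fun i => g (X i)) = g (pC X) := by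
  simp [pC, map_pA, map_pE, map_pB, map_pH]

end polys

section solve

variable {K : Type} [Field K]

theorem pA_iv (p : Fin 10 → K) : pA (iv p) = (p 0 - p 1) ^ 2 := by
  simp only [pA, iv]; ring

theorem pB_iv (p : Fin 10 → K) : pB (iv p) = (p 0 - p 1) ^ 2 * p 4 := by
  unfold pB
  rw [pA_iv]
  simp only [iv]; ring

theorem pE_iv (p : Fin 10 → K) : pE (iv p) = (p 0 - p 1) ^ 2 * (p 8 + p 4 * p 7) := by
  unfold pE
  rw [pA_iv]
  simp only [iv]; ring

theorem pH_iv (p : Fin 10 → K) :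
    pH (iv p) = (p 0 - p 1) ^ 2 * (p 0 * p 8 + p 1 * p 4 * p 7) := by
  unfold pH
  rw [pA_iv]
  simp only [iv]; ring

theorem pC_iv (p : Fin 10 → K) : pC (iv p) = (p 0 - p 1) ^ 6 * p 4 ^ 2 * p 9 ^ 2 := by
  unfold pC
  rw [pA_iv, pB_iv, pE_iv, pH_iv]
  simp only [iv]; ring

theorem solve [IsAlgClosed K] (X : Fin 10 → K) (hA : pA X ≠ 0)
    (hB : pB X ≠ 0) (hC : pC X ≠ 0) :
    ∃ p : Fin 10 → K, iv p = X ∧ p 0 - p 1 ≠ 0 ∧ p 4 ≠ 0 ∧ p 9 ≠ 0 := by
  obtain ⟨a1, ha1⟩ : ∃ a1 : K, a1 * a1 - X 0 * a1 + X 3 = 0 := by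
    have hdeg : (Polynomial.X ^ 2 - Polynomial.C (X 0) * Polynomial.X +
        Polynomial.C (X 3) : Polynomial K).degree ≠ 0 := by
      have : (Polynomial.X ^ 2 - Polynomial.C (X 0) * Polynomial.X +
        Polynomial.C (X 3) : Polynomial K).degree = 2 := by compute_degree!
      rw [this]; decide
    obtain ⟨z, hz⟩ := IsAlgClosed.exists_root _ hdeg
    refine ⟨z, ?_⟩
    simp only [Polynomial.IsRoot.def, Polynomial.eval_add, Polynomial.eval_sub,
      Polynomial.eval_pow, Polynomial.eval_X, Polynomial.eval_mul, Polynomial.eval_C] at hz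
    linear_combination hz
  obtain ⟨b1, hb1⟩ : ∃ b1 : K, a1 + b1 = X 0 := ⟨X 0 - a1, by ring⟩
  have e3 : a1 * b1 = X 3 := by
    have : b1 = X 0 - a1 := by linear_combination hb1
    rw [this]; linear_combination -ha1
  have hn : a1 - b1 ≠ 0 := by
    intro h
    apply hA
    unfold pA
    rw [← e3, ← hb1]
    have : a1 = b1 := by linear_combination h
    rw [this]; ring
  obtain ⟨b2, hb2⟩ : ∃ b2 : K, a1 * b2 + b1 * (X 1 - b2) = X 6 :=
    ⟨(X 6 - b1 * X 1) / (a1 - b1), by field_simp; ring⟩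
  obtain ⟨a2, ha2⟩ : ∃ a2 : K, a2 + b2 = X 1 := ⟨X 1 - b2, by ring⟩
  have e6 : a1 * b2 + a2 * b1 = X 6 := by
    rw [← hb2, ← ha2]; ring
  obtain ⟨c2, hc2⟩ : ∃ c2 : K, a2 * b2 - c2 = X 4 := ⟨a2 * b2 - X 4, by ring⟩
  have hc2n : c2 ≠ 0 := by
    rintro rfl
    apply hB
    unfold pB pA
    rw [← e3, ← hb1, ← hc2, ← e6, ← ha2]; ring
  obtain ⟨b3, hb3⟩ : ∃ b3 : K, a1 * b3 + b1 * (X 2 - b3) = X 7 :=
    ⟨(X 7 - b1 * X 2) / (a1 - b1), by field_simp; ring⟩
  obtain ⟨a3, ha3⟩ : ∃ a3 : K, a3 + b3 = X 2 := ⟨X 2 - b3, by ring⟩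
  have e7 : a1 * b3 + a3 * b1 = X 7 := by
    rw [← hb3, ← ha3]; ring
  obtain ⟨r, w, hr1, hr2⟩ : ∃ r w : K, a2 * b3 + a3 * b2 - (r + w) = X 8 ∧
      a1 * a2 * b3 + b1 * b2 * a3 - (a1 * r + b1 * w) = X 9 := by
    refine ⟨((a1 * a2 * b3 + b1 * b2 * a3 - X 9) - b1 * (a2 * b3 + a3 * b2 - X 8)) / (a1 - b1),
      (a1 * (a2 * b3 + a3 * b2 - X 8) - (a1 * a2 * b3 + b1 * b2 * a3 - X 9)) / (a1 - b1),
      ?_, ?_⟩
    · field_simp; ring
    · field_simp; ring
  obtain ⟨q, hq⟩ : ∃ q : K, c2 * q = w := ⟨w / c2, by field_simp⟩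
  obtain ⟨s, hs⟩ := IsAlgClosed.exists_eq_mul_self ((a3 * b3 - q * r - X 5) / c2)
  have e5 : a3 * b3 - q * r - c2 * s * s = X 5 := by
    have : c2 * (s * s) = a3 * b3 - q * r - X 5 := by
      rw [← hs]; field_simp
    linear_combination -this
  let p : Fin 10 → K := fun i => match i with
    | 0 => a1 | 1 => b1 | 2 => a2 | 3 => b2 | 4 => c2 | 5 => a3 | 6 => b3 | 7 => q
    | 8 => r | 9 => s
  have hp : iv p = X := by
    funext i
    fin_cases i
    · exact hb1
    · exact ha2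
    · exact ha3
    · exact e3
    · exact hc2
    · exact e5
    · exact e6
    · exact e7
    · show a2 * b3 + a3 * b2 - (r + c2 * q) = X 8
      rw [hq]; exact hr1
    · show a1 * a2 * b3 + b1 * b2 * a3 - (a1 * r + b1 * c2 * q) = X 9
      rw [← hr2, ← hq]; ring
  refine ⟨p, hp, hn, hc2n, ?_⟩
  intro h
  apply hC
  rw [← hp, pC_iv, h]; ring

end solve

/-- a field extension with a generic triple -/
theorem generic (F : Type) [Field F] :
    ∃ (K : Type) (_ : Field K) (_ : Algebra F K) (p : Fin 10 → K),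
      p 0 - p 1 ≠ 0 ∧ p 4 ≠ 0 ∧ p 9 ≠ 0 ∧
      LinearIndependent F (fun α : Fin 10 → ℕ => ∏ i, iv p i ^ α i) := by
  let P := MvPolynomial (Fin 10) F
  let K := AlgebraicClosure (FractionRing P)
  have hinj : Function.Injective (algebraMap P K) := by
    rw [IsScalarTower.algebraMap_eq P (FractionRing P) K]
    exact (algebraMap (FractionRing P) K).injective.comp (IsFractionRing.injective P _)
  let q0 : Fin 10 → F := fun i => if i = 0 ∨ i = 4 ∨ i = 9 then 1 else 0
  have key : ∀ (q : P), MvPolynomial.aeval (iv q0) q ≠ 0 → algebraMap P K q ≠ 0 := by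
    intro q hq h
    apply hq
    have h3 : q = 0 := hinj (by rw [h, map_zero])
    rw [h3, map_zero]
  let X : Fin 10 → K := fun i => algebraMap P K (MvPolynomial.X i)
  have hA : pA X ≠ 0 := by
    rw [map_pA (algebraMap P K)]
    apply key
    have := map_pA (MvPolynomial.aeval (iv q0) : P →ₐ[F] F).toRingHom
      (fun i => MvPolynomial.X i)
    simp only [AlgHom.toRingHom_eq_coe, RingHom.coe_coe, MvPolynomial.aeval_X] at this
    rw [← this]
    show pA (iv q0) ≠ 0
    rw [pA_iv]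
    simp [q0]
  have hB : pB X ≠ 0 := by
    rw [map_pB (algebraMap P K)]
    apply key
    have := map_pB (MvPolynomial.aeval (iv q0) : P →ₐ[F] F).toRingHom
      (fun i => MvPolynomial.X i)
    simp only [AlgHom.toRingHom_eq_coe, RingHom.coe_coe, MvPolynomial.aeval_X] at this
    rw [← this]
    show pB (iv q0) ≠ 0
    rw [pB_iv]
    simp [q0]
  have hC : pC X ≠ 0 := by
    rw [map_pC (algebraMap P K)]
    apply key
    have := map_pC (MvPolynomial.aeval (iv q0) : P →ₐ[F] F).toRingHom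
      (fun i => MvPolynomial.X i)
    simp only [AlgHom.toRingHom_eq_coe, RingHom.coe_coe, MvPolynomial.aeval_X] at this
    rw [← this]
    show pC (iv q0) ≠ 0
    rw [pC_iv]
    simp [q0]
  obtain ⟨p, hp, p1, p4, p9⟩ := solve X hA hB hC
  refine ⟨K, inferInstance, inferInstance, p, p1, p4, p9, ?_⟩
  have h3 : LinearIndependent F (fun m : Fin 10 →₀ ℕ => (MvPolynomial.monomial m (1 : F) : P)) := by
    have := (MvPolynomial.basisMonomials (Fin 10) F).linearIndependent
    rwa [MvPolynomial.coe_basisMonomials] at this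
  have h4 := h3.map' (IsScalarTower.toAlgHom F P K).toLinearMap
    (LinearMap.ker_eq_bot.mpr hinj)
  have h5 := h4.comp (Finsupp.equivFunOnFinite.symm : (Fin 10 → ℕ) ≃ (Fin 10 →₀ ℕ))
    (Equiv.injective _)
  have h6 : (fun α : Fin 10 → ℕ => ∏ i, iv p i ^ α i) =
      ((IsScalarTower.toAlgHom F P K).toLinearMap ∘ fun m : Fin 10 →₀ ℕ =>
        (MvPolynomial.monomial m (1 : F) : P)) ∘ (Finsupp.equivFunOnFinite.symm) := by
    funext α
    rw [hp]
    simp only [Function.comp_apply]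
    show _ = algebraMap P K (MvPolynomial.monomial _ 1)
    rw [MvPolynomial.monomial_eq, map_mul]
    simp [X, Finsupp.prod_fintype]
  rw [h6]
  exact h5

end

end Pool.Agent.Helper120_Alt.R4
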