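import Pool.Agent.Helper120_Alt.R4.Pt3
import Pool.Agent.Helper120_Alt.R3.Spn3

set_option autoImplicit false

/-! The octonionic part of the ideal generated by one element. -/

namespace Pool.Agent.Helper120_Alt.R4

open Pool.Agent.Helper895.Alt
open Pool.Agent.Helper120_Alt.R3 (ge cl cl_perm closureG cm)

noncomputable section

variable {F : Type} [Field F] {K : Type} [Field K] [Algebra F K] (p : Fin 10 → K)
  (f : NA F (Fin 3))

/-- products of the relator with the associator part -/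
def S1 : Set (Oct K) := {y | ∃ d ∈ D3 F p, y = ph F p f * d ∨ y = d * ph F p f}

/-- associators with the relator -/
def S2 : Set (Oct K) := {y | ∃ a b : NA F (Fin 3), y = asc (ph F p f) (ph F p a) (ph F p b)}

/-- the scalar element -/
def sh : Oct K := tr (ph F p f * om p) • one

/-- first ideal -/
def F1 : Submodule F (Oct K) := gen F p (S1 p f)

/-- first ideal with the scalar element -/
def K1 : Submodule F (Oct K) := gen F p (S1 p f ∪ {sh p f})

/-- the octonionic part of the ideal -/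
def FF : Submodule F (Oct K) := gen F p (S1 p f ∪ S2 p f)

/-- the octonionic part of the ideal, with the scalar element -/
def KK : Submodule F (Oct K) := gen F p (S1 p f ∪ S2 p f ∪ {sh p f})

theorem F1_le_K1 : F1 p f ≤ K1 p f := gen_mono p Set.subset_union_left
theorem F1_le_FF : F1 p f ≤ FF p f := gen_mono p Set.subset_union_left
theorem FF_le_KK : FF p f ≤ KK p f := gen_mono p Set.subset_union_left
theorem K1_le_KK : K1 p f ≤ KK p f := by
  apply gen_mono
  rintro x (hx | hx)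
  · exact Or.inl (Or.inl hx)
  · exact Or.inr hx

variable {p f}

theorem S1_smul (i : Fin 10) {x : Oct K} (hx : x ∈ S1 p f) : iv p i • x ∈ S1 p f := by
  obtain ⟨d, hd, rfl | rfl⟩ := hx
  · exact ⟨_, D3_PC p i d hd, Or.inl (by rw [mul_smul_comm])⟩
  · exact ⟨_, D3_PC p i d hd, Or.inr (by rw [smul_mul_assoc])⟩

theorem F1_PC : PC p (F1 p f) := fun i _ hx =>
  gen_smul p (gen_Bim p _) _ (fun _ hy => subset_gen p (S1_smul i hy)) hx

theorem T_F1 {d : Oct K} (hd : d ∈ D3 F p) : T (ph F p f) d ∈ F1 p f :=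
  add_mem (subset_gen p ⟨d, hd, Or.inl rfl⟩) (subset_gen p ⟨d, hd, Or.inr rfl⟩)

theorem tr_om : tr (om p) = 0 := tr_asc _ _ _

theorem T_om : T (ph F p f) (om p) = tr (ph F p f) • om p + sh p f := by
  rw [T_eq, tr_om]
  unfold sh
  simp

theorem fm_mem {N : Submodule F (Oct K)} (hN : Bim p N) (l : Fin 3) {x : Oct K} (hx : x ∈ N) :
    fm p l * x ∈ N ∧ x * fm p l ∈ N := by
  have := hN (ge F l) x hx
  rwa [ph_ge] at this

theorem fm2_mem {N : Submodule F (Oct K)} (hN : Bim p N) {x : Oct K} (hx : x ∈ N) :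
    (fm p 0 * fm p 1) * x ∈ N ∧ x * (fm p 0 * fm p 1) ∈ N := by
  have := hN (ge F 0 * ge F 1) x hx
  rwa [map_mul, ph_ge, ph_ge] at this

theorem opX_mem {N : Submodule F (Oct K)} (hN : Bim p N) (i : Fin 10) {x : Oct K} (hx : x ∈ N) :
    opX (fm p) i x ∈ N := by
  have l1 := fun l {x : Oct K} (hx : x ∈ N) => (fm_mem hN l hx).1
  have l2 := fun l {x : Oct K} (hx : x ∈ N) => (fm_mem hN l hx).2
  fin_cases i
  · exact add_mem (l1 _ hx) (l2 _ hx)
  · exact add_mem (l1 _ hx) (l2 _ hx)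
  · exact add_mem (l1 _ hx) (l2 _ hx)
  · exact l1 _ (l2 _ hx)
  · exact l1 _ (l2 _ hx)
  · exact l1 _ (l2 _ hx)
  · exact add_mem (l1 _ (l2 _ hx)) (l1 _ (l2 _ hx))
  · exact add_mem (l1 _ (l2 _ hx)) (l1 _ (l2 _ hx))
  · exact add_mem (l1 _ (l2 _ hx)) (l1 _ (l2 _ hx))
  · exact add_mem (fm2_mem hN (l2 _ hx)).1 (l1 _ (fm2_mem hN hx).2)

theorem opX_smul' (i : Fin 10) (c : K) (x : Oct K) :
    opX (fm p) i (c • x) = c • opX (fm p) i x := by
  fin_cases i <;> simp [opX, T, N, U, tau, mul_smul_comm, smul_mul_assoc]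

theorem sh_diff (i : Fin 10) : iv p i • sh p f - opX (fm p) i (sh p f) ∈ F1 p f := by
  have h1 : sh p f = T (ph F p f) (om p) - tr (ph F p f) • om p := by
    rw [T_om]; abel
  have h2 : iv p i • sh p f - opX (fm p) i (sh p f) =
      T (ph F p f) (iv p i • om p) - opX (fm p) i (T (ph F p f) (om p)) := by
    rw [h1]
    have h3 : opX (fm p) i (T (ph F p f) (om p) - tr (ph F p f) • om p) =
        opX (fm p) i (T (ph F p f) (om p)) - tr (ph F p f) • (iv p i • om p) := by
      rw [sub_eq_add_neg, opX_add, ← neg_smul, opX_smul', opX_om, neg_smul, ← sub_eq_add_neg]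
    rw [h3]
    have h4 : T (ph F p f) (iv p i • om p) = iv p i • T (ph F p f) (om p) := by
      unfold T; rw [mul_smul_comm, smul_mul_assoc, smul_add]
    rw [h4, smul_sub, smul_comm (iv p i) (tr (ph F p f)) (om p)]
    abel
  rw [h2]
  exact sub_mem (T_F1 (D3_PC p i _ (om_D3 p))) (opX_mem (gen_Bim p _) i (T_F1 (om_D3 p)))

theorem sh_smul_K1 (i : Fin 10) : iv p i • sh p f ∈ K1 p f := by
  have h1 : sh p f ∈ K1 p f := subset_gen p (Or.inr rfl)
  have h2 := opX_mem (gen_Bim p _ : Bim p (K1 p f)) i h1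
  have h3 := F1_le_K1 p f (sh_diff i)
  have := add_mem h3 h2
  rwa [sub_add_cancel] at this

theorem K1_PC : PC p (K1 p f) := fun i _ hx =>
  gen_smul p (gen_Bim p _) _ (by
    rintro y (hy | rfl)
    · exact subset_gen p (Or.inl (S1_smul i hy))
    · exact sh_smul_K1 i) hx

theorem Ls_mem {N : Submodule F (Oct K)} (hN : Bim p N) (s : Fin 8) {x : Oct K} (hx : x ∈ N) :
    Ls (fm p) s x ∈ N := by
  have l1 := fun l {x : Oct K} (hx : x ∈ N) => (fm_mem hN l hx).1
  fin_cases s
  · exact hx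
  · exact l1 _ hx
  · exact l1 _ hx
  · exact l1 _ hx
  · exact l1 _ (l1 _ hx)
  · exact l1 _ (l1 _ hx)
  · exact l1 _ (l1 _ hx)
  · exact l1 _ (l1 _ (l1 _ hx))

theorem trf_D3 {d : Oct K} (hd : d ∈ D3 F p) : tr (ph F p f) • d ∈ K1 p f := by
  induction hd using Submodule.span_induction with
  | mem x hx =>
    obtain ⟨⟨s, α⟩, rfl⟩ := hx
    show tr (ph F p f) • mon p α • dd p s ∈ K1 p f
    rw [smul_comm]
    apply K1_PC.mon
    unfold dd
    rw [← Ls_smul]
    apply Ls_mem (gen_Bim p _)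
    have h1 : tr (ph F p f) • om p = T (ph F p f) (om p) - sh p f := by
      rw [T_om]; abel
    rw [h1]
    exact sub_mem (F1_le_K1 p f (T_F1 (om_D3 p))) (subset_gen p (Or.inr rfl))
  | zero => rw [smul_zero]; exact zero_mem _
  | add x y _ _ hx hy => rw [smul_add]; exact add_mem hx hy
  | smul a x _ hx => rw [smul_comm]; exact Submodule.smul_mem _ _ hx

theorem tr_fd_K1 {d : Oct K} (hd : d ∈ D3 F p) : tr (ph F p f * d) • one ∈ K1 p f := by
  have h1 : tr (ph F p f * d) • one = T (ph F p f) d - tr (ph F p f) • d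
      - ph F p f * (tr d • one) + tr (ph F p f) • (tr d • one) := by
    rw [T_eq, mul_smul_comm, mul_one', smul_smul, sub_smul]
    abel
  rw [h1]
  have h2 := tr_D3 p hd
  refine add_mem (sub_mem (sub_mem (F1_le_K1 p f (T_F1 hd)) (trf_D3 hd)) ?_) (trf_D3 h2)
  exact F1_le_K1 p f (subset_gen p ⟨_, h2, Or.inl rfl⟩)

/-- scalars preserving `KK` -/
def St (p : Fin 10 → K) (f : NA F (Fin 3)) (k : K) : Prop := ∀ x ∈ KK p f, k • x ∈ KK p f

theorem tr_S2 (c : NA F (Fin 3)) {x : Oct K} (hx : x ∈ S2 p f) :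
    tr (ph F p c) • x ∈ KK p f := by
  obtain ⟨a, b, rfl⟩ := hx
  have hv : asc (ph F p f) (ph F p a) (ph F p b) ∈ KK p f :=
    subset_gen p (Or.inl (Or.inr ⟨a, b, rfl⟩))
  have h1 := T_eq (ph F p c) (asc (ph F p f) (ph F p a) (ph F p b))
  rw [tr_asc, zero_smul, mul_zero, zero_sub, tr_asc_swap] at h1
  have h2 : tr (ph F p c) • asc (ph F p f) (ph F p a) (ph F p b) =
      T (ph F p c) (asc (ph F p f) (ph F p a) (ph F p b)) +
        tr (ph F p f * asc (ph F p c) (ph F p a) (ph F p b)) • one := by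
    rw [h1, neg_neg]; abel
  rw [h2]
  refine add_mem (add_mem ?_ ?_) (K1_le_KK p f (tr_fd_K1 (asc_D3 p c a b)))
  · exact (gen_Bim p _ c _ hv).1
  · exact (gen_Bim p _ c _ hv).2

theorem St_of {k : K} (h1 : ∀ x ∈ S1 p f, k • x ∈ KK p f) (h2 : ∀ x ∈ S2 p f, k • x ∈ KK p f)
    (h3 : k • sh p f ∈ KK p f) : St p f k := fun _ hx =>
  gen_smul p (gen_Bim p _) _ (by
    rintro y ((hy | hy) | rfl)
    · exact h1 y hy
    · exact h2 y hy
    · exact h3) hx

theorem St_iv (i : Fin 10) (h : ∀ x ∈ S2 p f, iv p i • x ∈ KK p f) : St p f (iv p i) :=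
  St_of (fun _ hx => F1_le_FF p f |>.trans (FF_le_KK p f) (subset_gen p (S1_smul i hx))) h
    (K1_le_KK p f (sh_smul_K1 i))

theorem S2_KK {x : Oct K} (hx : x ∈ S2 p f) : x ∈ KK p f := subset_gen p (Or.inl (Or.inr hx))

theorem iv_smul_3 (v : Oct K) :
    iv p 3 • v = tr (fm p 0) • (fm p 0 * v) - fm p 0 * (fm p 0 * v) :=
  sq_eq _ _ (by simp only [fm, iv]; ring) v

theorem iv_smul_4 (v : Oct K) :
    iv p 4 • v = tr (fm p 1) • (fm p 1 * v) - fm p 1 * (fm p 1 * v) :=
  sq_eq _ _ (by simp only [fm, iv]; ring) v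

theorem iv_smul_5 (v : Oct K) :
    iv p 5 • v = tr (fm p 2) • (fm p 2 * v) - fm p 2 * (fm p 2 * v) :=
  sq_eq _ _ (by simp only [fm, iv]; ring) v

theorem KK_PC : PC p (KK p f) := by
  obtain ⟨t0, t1, t2, t01, t02, t12, t012⟩ := tr_fm p
  have e0 : St p f (iv p 0) := St_iv 0 fun x hx => by
    rw [← t0, ← ph_ge (F := F) p 0]; exact tr_S2 _ hx
  have e1 : St p f (iv p 1) := St_iv 1 fun x hx => by
    rw [← t1, ← ph_ge (F := F) p 1]; exact tr_S2 _ hx
  have e2 : St p f (iv p 2) := St_iv 2 fun x hx => by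
    rw [← t2, ← ph_ge (F := F) p 2]; exact tr_S2 _ hx
  have q2 : ∀ (l : Fin 3) (i j : Fin 10), St p f (iv p i) → tr (fm p l) = iv p i →
      (∀ v, iv p j • v = tr (fm p l) • (fm p l * v) - fm p l * (fm p l * v)) →
      St p f (iv p j) := by
    intro l i j hi ht h
    apply St_iv
    intro x hx
    rw [h x, ht]
    have h3 := (fm_mem (gen_Bim p _ : Bim p (KK p f)) l (S2_KK hx)).1
    exact sub_mem (hi _ h3) (fm_mem (gen_Bim p _ : Bim p (KK p f)) l h3).1
  have q3 : ∀ (l m : Fin 3) (i i' j : Fin 10), St p f (iv p i) → St p f (iv p i') →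
      tr (fm p l * fm p m) = iv p i * iv p i' - iv p j → St p f (iv p j) := by
    intro l m i i' j hi hi' ht
    apply St_iv
    intro x hx
    have h3 : iv p j • x = (iv p i • (iv p i' • x)) -
        tr (ph F p (ge F l * ge F m)) • x := by
      rw [map_mul, ph_ge, ph_ge, ht, smul_smul, ← sub_smul]
      congr 1
      ring
    rw [h3]
    exact sub_mem (hi _ (hi' _ (S2_KK hx))) (tr_S2 _ hx)
  have e3 := q2 0 0 3 e0 t0 (fun v => iv_smul_3 v)
  have e4 := q2 1 1 4 e1 t1 (fun v => iv_smul_4 v)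
  have e5 := q2 2 2 5 e2 t2 (fun v => iv_smul_5 v)
  have e6 := q3 0 1 0 1 6 e0 e1 t01
  have e7 := q3 0 2 0 2 7 e0 e2 t02
  have e8 := q3 1 2 1 2 8 e1 e2 t12
  have e9 : St p f (iv p 9) := by
    apply St_iv
    intro x hx
    have h3 : iv p 9 • x = (iv p 0 • (iv p 1 • (iv p 2 • x))) - (iv p 6 • (iv p 2 • x)) -
        tr (ph F p ((ge F 0 * ge F 1) * ge F 2)) • x := by
      rw [map_mul, map_mul, ph_ge, ph_ge, ph_ge, t012, smul_smul, smul_smul, smul_smul,
        ← sub_smul, ← sub_smul]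
      congr 1
      ring
    rw [h3]
    have h4 := e2 _ (S2_KK hx)
    exact sub_mem (sub_mem (e0 _ (e1 _ h4)) (e6 _ h4)) (tr_S2 _ hx)
  intro i
  fin_cases i
  · exact e0
  · exact e1
  · exact e2
  · exact e3
  · exact e4
  · exact e5
  · exact e6
  · exact e7
  · exact e8
  · exact e9

theorem KK_le_D3 : KK p f ≤ D3 F p := by
  apply gen_le
  · rintro x ((⟨d, hd, rfl | rfl⟩ | ⟨a, b, rfl⟩) | rfl)
    · exact (D3_Bim p f d hd).1
    · exact (D3_Bim p f d hd).2
    · exact asc_D3 p f a b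
    · exact tr_D3 p (D3_Bim p f _ (om_D3 p)).1
  · exact D3_Bim p

theorem sh_comm (x : Oct K) : x * sh p f = sh p f * x := by
  unfold sh
  rw [mul_smul_comm, smul_mul_assoc, mul_one', one_mul']

theorem mul_sh (x : Oct K) : x * sh p f = tr (ph F p f * om p) • x := by
  unfold sh
  rw [mul_smul_comm, mul_one']

/-- the multiples of the scalar element are scalars modulo the first ideal -/
theorem sh_A (a : NA F (Fin 3)) : ∃ k : K, ph F p a * sh p f - k • one ∈ F1 p f := by
  have hB : Bim p (F1 p f) := gen_Bim p _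
  have h1 := (hB a _ (T_F1 (p := p) (f := f) (om_D3 p))).1
  rw [T_om, mul_add, mul_smul_comm] at h1
  have hd := (D3_Bim (F := F) p a _ (om_D3 p)).1
  have h2 := T_F1 (f := f) hd
  rw [T_eq] at h2
  have h3 : ph F p f * (tr (ph F p a * om p) • one) ∈ F1 p f :=
    subset_gen p ⟨_, tr_D3 p hd, Or.inl rfl⟩
  rw [mul_smul_comm, mul_one'] at h3
  refine ⟨-(tr (ph F p f) * tr (ph F p a * om p) - tr (ph F p f * (ph F p a * om p))), ?_⟩
  have h4 := add_mem (sub_mem h1 h2) h3
  have e : tr (ph F p f) • (ph F p a * om p) + ph F p a * sh p f -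
      (tr (ph F p f) • (ph F p a * om p) + tr (ph F p a * om p) • ph F p f -
        (tr (ph F p f) * tr (ph F p a * om p) - tr (ph F p f * (ph F p a * om p))) • one) +
      tr (ph F p a * om p) • ph F p f =
      ph F p a * sh p f - (-(tr (ph F p f) * tr (ph F p a * om p) -
        tr (ph F p f * (ph F p a * om p)))) • one := by
    rw [neg_smul]; abel
  rwa [e] at h4

/-- iterated left multiplications by letters -/
def Lw (F : Type) [Field F] {K : Type} [Field K] [Algebra F K] (p : Fin 10 → K) :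
    List (Fin 3) → (Oct K →ₗ[F] Oct K)
  | [] => LinearMap.id
  | i :: l => LinearMap.mulLeft F (fm p i) ∘ₗ Lw F p l

theorem Lw_cons (i : Fin 3) (l : List (Fin 3)) (x : Oct K) :
    Lw F p (i :: l) x = fm p i * Lw F p l x := rfl

theorem Lw_smulK (k : K) (l : List (Fin 3)) (x : Oct K) :
    Lw F p l (k • x) = k • Lw F p l x := by
  induction l with
  | nil => rfl
  | cons i l ih => rw [Lw_cons, ih, mul_smul_comm, Lw_cons]

theorem Lw_sh (l : List (Fin 3)) : ∃ k : K, Lw F p l (sh p f) - k • one ∈ F1 p f := by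
  have h : l = [] ∨ ∃ a : NA F (Fin 3), Lw F p l (sh p f) = ph F p a * sh p f := by
    induction l with
    | nil => exact Or.inl rfl
    | cons i l ih =>
      right
      rcases ih with rfl | ⟨a, ha⟩
      · exact ⟨ge F i, by rw [ph_ge]; rfl⟩
      · refine ⟨ge F i * a, ?_⟩
        rw [Lw_cons, ha, mul_sh, mul_sh, mul_smul_comm, map_mul, ph_ge]
  rcases h with rfl | ⟨a, ha⟩
  · refine ⟨tr (ph F p f * om p), ?_⟩
    show sh p f - _ ∈ _
    unfold sh
    rw [sub_self]; exact zero_mem _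
  · rw [ha]; exact sh_A a

theorem F1_fm (l : Fin 3) {x : Oct K} (hx : x ∈ F1 p f) :
    fm p l * x ∈ F1 p f ∧ x * fm p l ∈ F1 p f := fm_mem (gen_Bim p _ : Bim p (F1 p f)) l hx

/-- elements that are scalars modulo the first ideal commute with the letters -/
theorem sc_comm (l : Fin 3) {y : Oct K} (h : ∃ k : K, y - k • one ∈ F1 p f) :
    fm p l * y - y * fm p l ∈ F1 p f := by
  obtain ⟨k, hk⟩ := h
  have h1 := F1_fm l hk
  have h2 := sub_mem h1.1 h1.2
  rw [mul_sub, sub_mul, mul_smul_comm, smul_mul_assoc, mul_one', one_mul',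
    sub_sub_sub_cancel_right] at h2
  exact h2

theorem sc_swap (i j : Fin 3) {y : Oct K} (h : ∃ k : K, y - k • one ∈ F1 p f)
    (h' : ∃ k : K, fm p j * y - k • one ∈ F1 p f) :
    fm p i * (fm p j * y) - fm p j * (fm p i * y) ∈ F1 p f := by
  have h1 := sc_comm i h'
  obtain ⟨k, hk⟩ := h
  have h2 := (F1_fm i (F1_fm j hk).1).2
  have h3 := (F1_fm j (F1_fm i hk).1).1
  have e1 : (fm p j * (y - k • one)) * fm p i = (fm p j * y) * fm p i - k • (fm p j * fm p i) := by
    rw [mul_sub, mul_smul_comm, mul_one', sub_mul, smul_mul_assoc]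
  have e2 : fm p j * (fm p i * (y - k • one)) = fm p j * (fm p i * y) -
      k • (fm p j * fm p i) := by
    rw [mul_sub, mul_smul_comm, mul_one', mul_sub, mul_smul_comm]
  rw [e1] at h2
  rw [e2] at h3
  have := add_mem h1 (sub_mem h2 h3)
  have e : fm p i * (fm p j * y) - fm p j * y * fm p i +
      (fm p j * y * fm p i - k • (fm p j * fm p i) -
        (fm p j * (fm p i * y) - k • (fm p j * fm p i))) =
      fm p i * (fm p j * y) - fm p j * (fm p i * y) := by abel
  rwa [e] at this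

theorem sh_perm {l l' : List (Fin 3)} (h : List.Perm l l') :
    Lw F p l (sh p f) - Lw F p l' (sh p f) ∈ F1 p f := by
  induction h with
  | nil => rw [sub_self]; exact zero_mem _
  | cons i _ ih =>
    rw [Lw_cons, Lw_cons, ← mul_sub]
    exact (F1_fm i ih).1
  | swap x y l =>
    rw [Lw_cons, Lw_cons, Lw_cons, Lw_cons]
    exact sc_swap y x (Lw_sh l) (Lw_sh (x :: l))
  | trans _ _ ih1 ih2 =>
    have := add_mem ih1 ih2
    rwa [sub_add_sub_cancel] at this

theorem sh_shift (l : Fin 3) (β : Fin 3 → ℕ) :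
    fm p l * Lw F p (cl β) (sh p f) - Lw F p (cl (β + Pi.single l 1)) (sh p f) ∈ F1 p f := by
  rw [← Lw_cons]
  exact sh_perm (cl_perm β l)

/-- the multiples of the scalar element span the larger part -/
theorem KK_span : KK p f ≤
    Submodule.span F (Set.range fun β : Fin 3 → ℕ => Lw F p (cl β) (sh p f)) ⊔ FF p f := by
  have hspan : ∀ (l : Fin 3) (x : Oct K),
      x ∈ Submodule.span F (Set.range fun β : Fin 3 → ℕ => Lw F p (cl β) (sh p f)) →
      fm p l * x ∈ Submodule.span F (Set.range fun β : Fin 3 → ℕ => Lw F p (cl β) (sh p f)) ⊔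
        FF p f ∧
      x * fm p l ∈ Submodule.span F (Set.range fun β : Fin 3 → ℕ => Lw F p (cl β) (sh p f)) ⊔
        FF p f := by
    intro l x hx
    induction hx using Submodule.span_induction with
    | mem x hx =>
      obtain ⟨β, rfl⟩ := hx
      have h1 : fm p l * Lw F p (cl β) (sh p f) ∈
          Submodule.span F (Set.range fun β : Fin 3 → ℕ => Lw F p (cl β) (sh p f)) ⊔ FF p f := by
        rw [← sub_add_cancel (fm p l * Lw F p (cl β) (sh p f))
          (Lw F p (cl (β + Pi.single l 1)) (sh p f))]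
        exact add_mem (Submodule.mem_sup_right (F1_le_FF p f (sh_shift l β)))
          (Submodule.mem_sup_left (Submodule.subset_span ⟨_, rfl⟩))
      refine ⟨h1, ?_⟩
      have h4 := sc_comm l (Lw_sh (p := p) (f := f) (cl β))
      have h5 := sub_mem h1 (Submodule.mem_sup_right (F1_le_FF p f h4))
      rwa [sub_sub_cancel] at h5
    | zero => rw [mul_zero, zero_mul]; exact ⟨zero_mem _, zero_mem _⟩
    | add x y _ _ hx hy =>
      rw [mul_add, add_mul]
      exact ⟨add_mem hx.1 hy.1, add_mem hx.2 hy.2⟩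
    | smul a x _ hx =>
      rw [mul_smul_comm, smul_mul_assoc]
      exact ⟨Submodule.smul_mem _ _ hx.1, Submodule.smul_mem _ _ hx.2⟩
  apply gen_le
  · rintro x (hx | rfl)
    · exact Submodule.mem_sup_right (subset_gen p hx)
    · apply Submodule.mem_sup_left
      apply Submodule.subset_span
      refine ⟨0, ?_⟩
      have : cl (0 : Fin 3 → ℕ) = [] := by simp [cl]
      show Lw F p (cl 0) (sh p f) = sh p f
      rw [this]; rfl
  · intro a x hx
    refine closureG (ph F p : NA F (Fin 3) →ₙ+* Oct K) (Submodule.span F (Set.range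
      fun β : Fin 3 → ℕ => Lw F p (cl β) (sh p f)) ⊔ FF p f).toAddSubgroup ?_ a x hx
    intro l c x hx
    obtain ⟨y, hy, z, hz, rfl⟩ := Submodule.mem_sup.mp hx
    have e1 : (ph F p : NA F (Fin 3) →ₙ+* Oct K) (MonoidAlgebra.single (FreeMagma.of l) c) =
        c • fm p l := ph_letter p l c
    rw [e1, smul_mul_assoc, mul_smul_comm, mul_add, add_mul]
    have h1 := hspan l y hy
    have h3 := fm_mem (gen_Bim p _ : Bim p (FF p f)) l hz
    exact ⟨Submodule.smul_mem _ _ (add_mem h1.1 (Submodule.mem_sup_right h3.1)),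
      Submodule.smul_mem _ _ (add_mem h1.2 (Submodule.mem_sup_right h3.2))⟩

end

end Pool.Agent.Helper120_Alt.R4
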