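import Pool.Agent.Helper120_Alt.R3.Free3

set_option autoImplicit false

/-! Split octonions over a field `K` of any characteristic (vector matrices), as an algebra over a
subfield `R`: trace identities and a generic triple. -/

namespace Pool.Agent.Helper120_Alt.R4

open Pool.Agent.Helper895.Alt

/-- split octonions: `x0, x1` are the diagonal entries, `x2, x3, x4` and `x5, x6, x7` the two
vectors -/
@[ext] structure Oct (K : Type) where
  x0 : K
  x1 : K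
  x2 : K
  x3 : K
  x4 : K
  x5 : K
  x6 : K
  x7 : K

namespace Oct

variable {K : Type} [CommRing K]

instance : Zero (Oct K) := ⟨⟨0, 0, 0, 0, 0, 0, 0, 0⟩⟩
instance : Add (Oct K) := ⟨fun x y => ⟨x.x0 + y.x0, x.x1 + y.x1, x.x2 + y.x2, x.x3 + y.x3,
  x.x4 + y.x4, x.x5 + y.x5, x.x6 + y.x6, x.x7 + y.x7⟩⟩
instance : Neg (Oct K) := ⟨fun x => ⟨-x.x0, -x.x1, -x.x2, -x.x3, -x.x4, -x.x5, -x.x6, -x.x7⟩⟩
instance : Mul (Oct K) := ⟨fun x y =>
  ⟨x.x0*y.x0 + x.x2*y.x5 + x.x3*y.x6 + x.x4*y.x7,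
   x.x1*y.x1 + x.x5*y.x2 + x.x6*y.x3 + x.x7*y.x4,
   x.x0*y.x2 + y.x1*x.x2 - (x.x6*y.x7 - x.x7*y.x6),
   x.x0*y.x3 + y.x1*x.x3 - (x.x7*y.x5 - x.x5*y.x7),
   x.x0*y.x4 + y.x1*x.x4 - (x.x5*y.x6 - x.x6*y.x5),
   y.x0*x.x5 + x.x1*y.x5 + (x.x3*y.x4 - x.x4*y.x3),
   y.x0*x.x6 + x.x1*y.x6 + (x.x4*y.x2 - x.x2*y.x4),
   y.x0*x.x7 + x.x1*y.x7 + (x.x2*y.x3 - x.x3*y.x2)⟩⟩

theorem zero_def : (0 : Oct K) = ⟨0, 0, 0, 0, 0, 0, 0, 0⟩ := rfl
theorem add_def (x y : Oct K) : x + y = ⟨x.x0 + y.x0, x.x1 + y.x1, x.x2 + y.x2, x.x3 + y.x3,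
  x.x4 + y.x4, x.x5 + y.x5, x.x6 + y.x6, x.x7 + y.x7⟩ := rfl
theorem neg_def (x : Oct K) :
    -x = ⟨-x.x0, -x.x1, -x.x2, -x.x3, -x.x4, -x.x5, -x.x6, -x.x7⟩ := rfl
theorem mul_def (x y : Oct K) : x * y =
  ⟨x.x0*y.x0 + x.x2*y.x5 + x.x3*y.x6 + x.x4*y.x7,
   x.x1*y.x1 + x.x5*y.x2 + x.x6*y.x3 + x.x7*y.x4,
   x.x0*y.x2 + y.x1*x.x2 - (x.x6*y.x7 - x.x7*y.x6),
   x.x0*y.x3 + y.x1*x.x3 - (x.x7*y.x5 - x.x5*y.x7),
   x.x0*y.x4 + y.x1*x.x4 - (x.x5*y.x6 - x.x6*y.x5),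
   y.x0*x.x5 + x.x1*y.x5 + (x.x3*y.x4 - x.x4*y.x3),
   y.x0*x.x6 + x.x1*y.x6 + (x.x4*y.x2 - x.x2*y.x4),
   y.x0*x.x7 + x.x1*y.x7 + (x.x2*y.x3 - x.x3*y.x2)⟩ := rfl

instance : NonUnitalNonAssocRing (Oct K) where
  add_assoc x y z := by simp only [add_def, mk.injEq]; refine ⟨?_, ?_, ?_, ?_, ?_, ?_, ?_, ?_⟩ <;> ring
  zero_add x := by ext <;> simp [add_def, zero_def]
  add_zero x := by ext <;> simp [add_def, zero_def]
  nsmul := nsmulRec
  zsmul := zsmulRec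
  neg_add_cancel x := by ext <;> simp [add_def, zero_def, neg_def]
  add_comm x y := by simp only [add_def, mk.injEq]; refine ⟨?_, ?_, ?_, ?_, ?_, ?_, ?_, ?_⟩ <;> ring
  left_distrib x y z := by
    simp only [add_def, mul_def, mk.injEq]; refine ⟨?_, ?_, ?_, ?_, ?_, ?_, ?_, ?_⟩ <;> ring
  right_distrib x y z := by
    simp only [add_def, mul_def, mk.injEq]; refine ⟨?_, ?_, ?_, ?_, ?_, ?_, ?_, ?_⟩ <;> ring
  zero_mul x := by ext <;> simp [mul_def, zero_def]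
  mul_zero x := by ext <;> simp [mul_def, zero_def]

instance : AltRing (Oct K) where
  altl x y := by
    simp only [mul_def, mk.injEq]; refine ⟨?_, ?_, ?_, ?_, ?_, ?_, ?_, ?_⟩ <;> ring
  altr x y := by
    simp only [mul_def, mk.injEq]; refine ⟨?_, ?_, ?_, ?_, ?_, ?_, ?_, ?_⟩ <;> ring

theorem sub_def (x y : Oct K) : x - y = ⟨x.x0 - y.x0, x.x1 - y.x1, x.x2 - y.x2, x.x3 - y.x3,
    x.x4 - y.x4, x.x5 - y.x5, x.x6 - y.x6, x.x7 - y.x7⟩ := by
  rw [sub_eq_add_neg, neg_def, add_def]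
  simp only [mk.injEq]; refine ⟨?_, ?_, ?_, ?_, ?_, ?_, ?_, ?_⟩ <;> ring

end Oct

noncomputable section

section mod

variable {R K : Type} [Field R] [Field K] [Algebra R K]

instance : SMul R (Oct K) := ⟨fun r x => ⟨r • x.x0, r • x.x1, r • x.x2, r • x.x3, r • x.x4,
  r • x.x5, r • x.x6, r • x.x7⟩⟩

theorem smul_def' (r : R) (x : Oct K) : r • x = ⟨r • x.x0, r • x.x1, r • x.x2, r • x.x3,
  r • x.x4, r • x.x5, r • x.x6, r • x.x7⟩ := rfl

instance : Module R (Oct K) where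
  one_smul x := by simp [smul_def']
  mul_smul r s x := by simp [smul_def', mul_smul]
  smul_zero r := by simp [smul_def', Oct.zero_def]
  smul_add r x y := by simp [smul_def', Oct.add_def]
  add_smul r s x := by simp [smul_def', Oct.add_def, add_smul]
  zero_smul x := by simp [smul_def', Oct.zero_def]

instance : IsScalarTower R (Oct K) (Oct K) where
  smul_assoc r x y := by
    simp only [smul_def', smul_eq_mul, Oct.mul_def, Oct.mk.injEq, Algebra.smul_def]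
    refine ⟨?_, ?_, ?_, ?_, ?_, ?_, ?_, ?_⟩ <;> ring

instance : SMulCommClass R (Oct K) (Oct K) where
  smul_comm r x y := by
    simp only [smul_def', smul_eq_mul, Oct.mul_def, Oct.mk.injEq, Algebra.smul_def]
    refine ⟨?_, ?_, ?_, ?_, ?_, ?_, ?_, ?_⟩ <;> ring

theorem algebraMap_smul' (r : R) (x : Oct K) : (algebraMap R K r) • x = r • x := by
  simp [smul_def', Algebra.smul_def]

instance : SMulCommClass R K (Oct K) where
  smul_comm r k x := by
    simp only [smul_def', smul_eq_mul, Oct.mk.injEq, Algebra.smul_def]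
    refine ⟨?_, ?_, ?_, ?_, ?_, ?_, ?_, ?_⟩ <;> ring

end mod

section tr

variable {K : Type} [Field K]

/-- the trace -/
def tr (x : Oct K) : K := x.x0 + x.x1

/-- the unit element -/
def one : Oct K := ⟨1, 1, 0, 0, 0, 0, 0, 0⟩

theorem tr_add (x y : Oct K) : tr (x + y) = tr x + tr y := by
  simp only [tr, Oct.add_def]; ring

theorem tr_smul (c : K) (x : Oct K) : tr (c • x) = c * tr x := by
  simp only [tr, smul_def', smul_eq_mul]; ring

theorem tr_sub (x y : Oct K) : tr (x - y) = tr x - tr y := by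
  simp only [tr, Oct.sub_def]; ring

theorem one_mul' (x : Oct K) : one * x = x := by
  simp [one, Oct.mul_def]

theorem mul_one' (x : Oct K) : x * one = x := by
  simp [one, Oct.mul_def]

theorem T_eq (a b : Oct K) :
    T a b = tr a • b + tr b • a - (tr a * tr b - tr (a * b)) • one := by
  simp only [T, tr, one, smul_def', smul_eq_mul, Oct.mul_def, Oct.add_def, Oct.sub_def,
    Oct.mk.injEq]
  refine ⟨?_, ?_, ?_, ?_, ?_, ?_, ?_, ?_⟩ <;> ring

theorem tr_comm (a b : Oct K) : tr (a * b) = tr (b * a) := by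
  simp only [tr, Oct.mul_def]; ring

theorem tr_assoc (a b c : Oct K) : tr ((a * b) * c) = tr (a * (b * c)) := by
  simp only [tr, Oct.mul_def]; ring

theorem tr_asc_swap (c f a b : Oct K) : tr (c * asc f a b) = -tr (f * asc c a b) := by
  have h1 : tr (c * asc f a b) = tr ((c * (f * a)) * b) - tr ((c * f) * (a * b)) := by
    unfold asc
    rw [mul_sub, tr_sub, ← tr_assoc c (f * a) b, ← tr_assoc c f (a * b)]
  have h2 : tr (f * asc c a b) = tr ((f * (c * a)) * b) - tr ((f * c) * (a * b)) := by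
    unfold asc
    rw [mul_sub, tr_sub, ← tr_assoc f (c * a) b, ← tr_assoc f c (a * b)]
  have h3 : c * (f * a) + f * (c * a) = (c * f + f * c) * a := by
    have h := asc_swap12 c f a
    unfold asc at h
    rw [add_mul]
    linear_combination (norm := abel) -h
  have h4 : tr ((c * (f * a)) * b) + tr ((f * (c * a)) * b) =
      tr ((c * f) * (a * b)) + tr ((f * c) * (a * b)) := by
    rw [← tr_add, ← add_mul, h3, tr_assoc, add_mul, tr_add]
  rw [h1, h2]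
  linear_combination h4

theorem tr_asc (f a b : Oct K) : tr (asc f a b) = 0 := by
  unfold asc
  rw [tr_sub, tr_assoc, sub_self]

/-- the square of an octonion -/
theorem sq_eq (n : K) (x : Oct K) (h : x.x0 * x.x1 - x.x2 * x.x5 - x.x3 * x.x6 - x.x4 * x.x7 = n)
    (v : Oct K) : n • v = tr x • (x * v) - x * (x * v) := by
  subst h
  simp only [tr, smul_def', smul_eq_mul, Oct.mul_def, Oct.sub_def, Oct.mk.injEq]
  refine ⟨?_, ?_, ?_, ?_, ?_, ?_, ?_, ?_⟩ <;> ring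

/-- a ten parameter family of triples of octonions -/
def fm (p : Fin 10 → K) : Fin 3 → Oct K
  | 0 => ⟨p 0, p 1, 0, 0, 0, 0, 0, 0⟩
  | 1 => ⟨p 2, p 3, 1, 0, 0, p 4, 0, 0⟩
  | 2 => ⟨p 5, p 6, p 7, p 4 * p 9, 0, p 8, p 9, 0⟩

/-- the invariants of the family -/
def iv (p : Fin 10 → K) : Fin 10 → K
  | 0 => p 0 + p 1
  | 1 => p 2 + p 3
  | 2 => p 5 + p 6
  | 3 => p 0 * p 1
  | 4 => p 2 * p 3 - p 4
  | 5 => p 5 * p 6 - p 7 * p 8 - p 4 * p 9 * p 9
  | 6 => p 0 * p 3 + p 2 * p 1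
  | 7 => p 0 * p 6 + p 5 * p 1
  | 8 => p 2 * p 6 + p 5 * p 3 - (p 8 + p 4 * p 7)
  | 9 => p 0 * p 2 * p 6 + p 1 * p 3 * p 5 - (p 0 * p 8 + p 1 * p 4 * p 7)

/-- multiples of a fixed unit -/
def yk (t : K) : Oct K := ⟨0, 0, 0, 0, t, 0, 0, t⟩

theorem opX_fm (p : Fin 10 → K) (i : Fin 10) (t : K) :
    opX (fm p) i (yk t) = iv p i • yk t := by
  fin_cases i <;>
  · simp only [opX, T, N, U, tau, fm, yk, iv, smul_def', smul_eq_mul, Oct.mul_def, Oct.add_def,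
      Oct.mk.injEq]
    refine ⟨?_, ?_, ?_, ?_, ?_, ?_, ?_, ?_⟩ <;> ring

/-- the factor of the basic associator -/
def tk (p : Fin 10 → K) : K := (p 0 - p 1) * p 4 * p 9

theorem asc_fm (p : Fin 10 → K) :
    asc (fm p 0) (fm p 1) (fm p 2) = yk (tk p) := by
  simp only [asc, fm, yk, tk, Oct.mul_def, Oct.sub_def, Oct.mk.injEq]
  refine ⟨?_, ?_, ?_, ?_, ?_, ?_, ?_, ?_⟩ <;> ring

/-- linear independence -/
theorem indep_fm (p : Fin 10 → K) (h1 : p 0 - p 1 ≠ 0) (h4 : p 4 ≠ 0) (h9 : p 9 ≠ 0)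
    (t : Fin 8 → K) (h : ∑ s, Ls (fm p) s (yk (t s)) = 0) (s : Fin 8) : t s = 0 := by
  simp only [Fin.sum_univ_eight, Ls, fm, yk, Oct.mul_def, Oct.add_def, Oct.zero_def,
    Oct.mk.injEq] at h
  obtain ⟨e0, e1, e2, e3, e4, e5, e6, e7⟩ := h
  have hd : ∀ {a b : K}, a + p 0 * b = 0 → a + p 1 * b = 0 → b = 0 ∧ a = 0 := by
    intro a b ha hb
    have h3 : (p 0 - p 1) * b = 0 := by linear_combination ha - hb
    have h5 : b = 0 := (mul_eq_zero.mp h3).resolve_left h1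
    exact ⟨h5, by rw [h5, mul_zero, add_zero] at ha; exact ha⟩
  obtain ⟨t7, t6⟩ := hd (a := t 6) (b := t 7)
    (by
      have : p 4 * p 9 * (t 6 + p 0 * t 7) = 0 := by linear_combination e0
      exact (mul_eq_zero.mp this).resolve_left (mul_ne_zero h4 h9))
    (by
      have : p 4 * p 9 * (t 6 + p 1 * t 7) = 0 := by linear_combination -e1
      exact (mul_eq_zero.mp this).resolve_left (mul_ne_zero h4 h9))
  rw [t7, t6] at e2 e3 e4 e5 e6 e7
  obtain ⟨t5, t3⟩ := hd (a := t 3) (b := t 5)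
    (by
      have : p 9 * (t 3 + p 0 * t 5) = 0 := by linear_combination -e2
      exact (mul_eq_zero.mp this).resolve_left h9)
    (by
      have : p 4 * p 9 * (t 3 + p 1 * t 5) = 0 := by linear_combination e5
      exact (mul_eq_zero.mp this).resolve_left (mul_ne_zero h4 h9))
  rw [t5, t3] at e3 e4 e6 e7
  obtain ⟨t4, t2⟩ := hd (a := t 2) (b := t 4)
    (by
      have : p 4 * (t 2 + p 0 * t 4) = 0 := by linear_combination e3
      exact (mul_eq_zero.mp this).resolve_left h4)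
    (by linear_combination -e6)
  rw [t4, t2] at e4 e7
  obtain ⟨t1, t0⟩ := hd (a := t 0) (b := t 1)
    (by linear_combination e4) (by linear_combination e7)
  fin_cases s <;> assumption

/-- traces of the standard products -/
theorem tr_Ls (p : Fin 10 → K) (t : K) (s : Fin 8) (hs : s ≠ 7) :
    tr (Ls (fm p) s (yk t)) = 0 := by
  fin_cases s
  all_goals first
    | exact absurd rfl hs
    | (simp only [Ls, fm, yk, tr, Oct.mul_def]; ring)

theorem tr_Ls7 (p : Fin 10 → K) :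
    tr (Ls (fm p) 7 (yk (tk p))) • one = yk (tk p) * yk (tk p) := by
  simp only [Ls, fm, yk, tr, tk, one, smul_def', smul_eq_mul, Oct.mul_def, Oct.mk.injEq]
  refine ⟨?_, ?_, ?_, ?_, ?_, ?_, ?_, ?_⟩ <;> ring

/-- traces of short products in terms of the invariants -/
theorem tr_fm (p : Fin 10 → K) : tr (fm p 0) = iv p 0 ∧ tr (fm p 1) = iv p 1 ∧
    tr (fm p 2) = iv p 2 ∧
    tr (fm p 0 * fm p 1) = iv p 0 * iv p 1 - iv p 6 ∧
    tr (fm p 0 * fm p 2) = iv p 0 * iv p 2 - iv p 7 ∧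
    tr (fm p 1 * fm p 2) = iv p 1 * iv p 2 - iv p 8 ∧
    tr ((fm p 0 * fm p 1) * fm p 2) = (iv p 0 * iv p 1 - iv p 6) * iv p 2 - iv p 9 := by
  simp only [fm, tr, iv, Oct.mul_def]
  refine ⟨?_, ?_, ?_, ?_, ?_, ?_, ?_⟩ <;> first | trivial | ring

end tr

end

end Pool.Agent.Helper120_Alt.R4
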