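import Pool.Agent.Helper120_Alt.R4.Asm3
import Pool.Agent.Helper120_Alt.R3.Raw5

set_option autoImplicit false

/-! Raw polynomials: the spanning family of the ideal in any characteristic. -/

namespace Pool.Agent.Helper120_Alt.R4

open Pool.Agent.Helper895.Alt
open Pool.Agent.Helper120_Alt.R3

noncomputable section

variable {F : Type} [Field F]

/-- the raw form of the first law at words -/
def q1R (F : Type) [Field F] (a c : Pw) : Raw F := [(1, mP (mP a a) c), (-1, mP a (mP a c))]

/-- the raw form of the second law at words -/
def q2R (F : Type) [Field F] (a c : Pw) : Raw F := [(1, mP (mP c a) a), (-1, mP c (mP a a))]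

theorem Val_q1R (a c : Pw) : Val parse (q1R F a c) = asc (tM F a) (tM F a) (tM F c) := by
  unfold q1R asc
  rw [Val_cons, Val_cons, Val_nil, single_mP, single_mP, tM_mP, tM_mP, one_smul, neg_one_smul]
  abel

theorem Val_q2R (a c : Pw) : Val parse (q2R F a c) = asc (tM F c) (tM F a) (tM F a) := by
  unfold q2R asc
  rw [Val_cons, Val_cons, Val_nil, single_mP, single_mP, tM_mP, tM_mP, one_smul, neg_one_smul]
  abel

/-- the raw spanning family of the ideal of the relator -/
def Hr2 (fr : Raw F) (k : Cx × Option ((Bool × Bool) × (Pw × (Pw × Pw)))) : Raw F :=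
  cx k.1 (Option.casesOn k.2 fr fun y =>
    (bif y.1.2 then (bif y.1.1 then q1R F y.2.1 y.2.2.2 else q2R F y.2.1 y.2.2.2)
      else (bif y.1.1 then t1R F y.2.1 y.2.2.1 y.2.2.2 else t2R F y.2.1 y.2.2.1 y.2.2.2)))

/-- the raw family spans the ideal -/
theorem If_span (fr : Raw F) :
    If (Val parse fr) = Submodule.span F (Set.range fun k => Val parse (Hr2 fr k)) := by
  apply le_antisymm
  · set S := Submodule.span F (Set.range fun k => Val parse (Hr2 fr k)) with hS
    have hmul : ∀ a : NA F (Fin 3), ∀ x ∈ S, a * x ∈ S ∧ x * a ∈ S := by
      intro a x hx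
      induction a using MonoidAlgebra.induction_linear with
      | zero => rw [zero_mul, mul_zero]; exact ⟨zero_mem _, zero_mem _⟩
      | add a b ha hb =>
        rw [add_mul, mul_add]
        exact ⟨add_mem ha.1 hb.1, add_mem ha.2 hb.2⟩
      | single m r =>
        rw [single_tM, smul_mul_assoc, mul_smul_comm]
        suffices h : tM F (pol m) * x ∈ S ∧ x * tM F (pol m) ∈ S from
          ⟨Submodule.smul_mem _ _ h.1, Submodule.smul_mem _ _ h.2⟩
        induction hx using Submodule.span_induction with
        | mem x hx =>
          obtain ⟨⟨c, k⟩, rfl⟩ := hx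
          constructor
          · apply Submodule.subset_span
            refine ⟨((true, pol m) :: c, k), ?_⟩
            show Val parse (Hr2 fr ((true, pol m) :: c, k)) = tM F (pol m) * Val parse (Hr2 fr (c, k))
            unfold Hr2
            rw [Val_cx, Val_cx]
            rfl
          · apply Submodule.subset_span
            refine ⟨((false, pol m) :: c, k), ?_⟩
            show Val parse (Hr2 fr ((false, pol m) :: c, k)) =
              Val parse (Hr2 fr (c, k)) * tM F (pol m)
            unfold Hr2
            rw [Val_cx, Val_cx]
            rfl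
        | zero => rw [mul_zero, zero_mul]; exact ⟨zero_mem _, zero_mem _⟩
        | add x y _ _ hx hy =>
          rw [mul_add, add_mul]
          exact ⟨add_mem hx.1 hy.1, add_mem hx.2 hy.2⟩
        | smul a x _ hx =>
          rw [mul_smul_comm, smul_mul_assoc]
          exact ⟨Submodule.smul_mem _ _ hx.1, Submodule.smul_mem _ _ hx.2⟩
    have hl1 : ∀ a b c : NA F (Fin 3), asc a b c + asc b a c ∈ S := by
      intro a b c
      induction a using MonoidAlgebra.induction_linear with
      | zero => unfold asc; simp
      | add a a' ha ha' =>
        have e : asc (a + a') b c + asc b (a + a') c = (asc a b c + asc b a c) +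
            (asc a' b c + asc b a' c) := by rw [asc_add1, asc_add2]; abel
        rw [e]; exact add_mem ha ha'
      | single m r =>
        rw [single_tM, asc_smul1, asc_smul2, ← smul_add]
        apply Submodule.smul_mem
        induction b using MonoidAlgebra.induction_linear with
        | zero => unfold asc; simp
        | add a a' ha ha' =>
          have e : asc (tM F (pol m)) (a + a') c + asc (a + a') (tM F (pol m)) c =
              (asc (tM F (pol m)) a c + asc a (tM F (pol m)) c) +
              (asc (tM F (pol m)) a' c + asc a' (tM F (pol m)) c) := by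
            rw [asc_add1, asc_add2]; abel
          rw [e]; exact add_mem ha ha'
        | single m' r' =>
          rw [single_tM, asc_smul1, asc_smul2, ← smul_add]
          apply Submodule.smul_mem
          induction c using MonoidAlgebra.induction_linear with
          | zero => unfold asc; simp
          | add a a' ha ha' =>
            rw [asc_add3, asc_add3, add_add_add_comm]; exact add_mem ha ha'
          | single m'' r'' =>
            rw [single_tM, asc_smul3, asc_smul3, ← smul_add]
            apply Submodule.smul_mem
            apply Submodule.subset_span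
            refine ⟨([], some ((true, false), (pol m, (pol m', pol m'')))), ?_⟩
            show Val parse (Hr2 fr ([], some ((true, false), (pol m, (pol m', pol m''))))) = _
            unfold Hr2
            rw [Val_cx]
            exact Val_t1R _ _ _
    have hl2 : ∀ a b c : NA F (Fin 3), asc c a b + asc c b a ∈ S := by
      intro a b c
      induction a using MonoidAlgebra.induction_linear with
      | zero => unfold asc; simp
      | add a a' ha ha' =>
        have e : asc c (a + a') b + asc c b (a + a') = (asc c a b + asc c b a) +
            (asc c a' b + asc c b a') := by rw [asc_add3, asc_add2]; abel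
        rw [e]; exact add_mem ha ha'
      | single m r =>
        rw [single_tM, asc_smul3, asc_smul2, ← smul_add]
        apply Submodule.smul_mem
        induction b using MonoidAlgebra.induction_linear with
        | zero => unfold asc; simp
        | add a a' ha ha' =>
          have e : asc c (tM F (pol m)) (a + a') + asc c (a + a') (tM F (pol m)) =
              (asc c (tM F (pol m)) a + asc c a (tM F (pol m))) +
              (asc c (tM F (pol m)) a' + asc c a' (tM F (pol m))) := by
            rw [asc_add3, asc_add2]; abel
          rw [e]; exact add_mem ha ha'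
        | single m' r' =>
          rw [single_tM, asc_smul3, asc_smul2, ← smul_add]
          apply Submodule.smul_mem
          induction c using MonoidAlgebra.induction_linear with
          | zero => unfold asc; simp
          | add a a' ha ha' =>
            rw [asc_add1, asc_add1, add_add_add_comm]; exact add_mem ha ha'
          | single m'' r'' =>
            rw [single_tM, asc_smul1, asc_smul1, ← smul_add]
            apply Submodule.smul_mem
            apply Submodule.subset_span
            refine ⟨([], some ((false, false), (pol m, (pol m', pol m'')))), ?_⟩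
            show Val parse (Hr2 fr ([], some ((false, false), (pol m, (pol m', pol m''))))) = _
            unfold Hr2
            rw [Val_cx]
            exact Val_t2R _ _ _
    have hq1 : ∀ a c : NA F (Fin 3), asc a a c ∈ S := by
      intro a c
      induction a using MonoidAlgebra.induction_linear with
      | zero => unfold asc; simp
      | add a a' ha ha' =>
        have e : asc (a + a') (a + a') c = asc a a c + asc a' a' c +
            (asc a a' c + asc a' a c) := by
          rw [asc_add1, asc_add2, asc_add2]; abel
        rw [e]; exact add_mem (add_mem ha ha') (hl1 _ _ _)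
      | single m r =>
        rw [single_tM, asc_smul1, asc_smul2]
        apply Submodule.smul_mem
        apply Submodule.smul_mem
        induction c using MonoidAlgebra.induction_linear with
        | zero => unfold asc; simp
        | add a a' ha ha' => rw [asc_add3]; exact add_mem ha ha'
        | single m'' r'' =>
          rw [single_tM, asc_smul3]
          apply Submodule.smul_mem
          apply Submodule.subset_span
          refine ⟨([], some ((true, true), (pol m, (pol m, pol m'')))), ?_⟩
          show Val parse (Hr2 fr ([], some ((true, true), (pol m, (pol m, pol m''))))) = _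
          unfold Hr2
          rw [Val_cx]
          exact Val_q1R _ _
    have hq2 : ∀ a c : NA F (Fin 3), asc c a a ∈ S := by
      intro a c
      induction a using MonoidAlgebra.induction_linear with
      | zero => unfold asc; simp
      | add a a' ha ha' =>
        have e : asc c (a + a') (a + a') = asc c a a + asc c a' a' +
            (asc c a a' + asc c a' a) := by
          rw [asc_add3, asc_add2, asc_add2]; abel
        rw [e]; exact add_mem (add_mem ha ha') (hl2 _ _ _)
      | single m r =>
        rw [single_tM, asc_smul3, asc_smul2]
        apply Submodule.smul_mem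
        apply Submodule.smul_mem
        induction c using MonoidAlgebra.induction_linear with
        | zero => unfold asc; simp
        | add a a' ha ha' => rw [asc_add1]; exact add_mem ha ha'
        | single m'' r'' =>
          rw [single_tM, asc_smul1]
          apply Submodule.smul_mem
          apply Submodule.subset_span
          refine ⟨([], some ((false, true), (pol m, (pol m, pol m'')))), ?_⟩
          show Val parse (Hr2 fr ([], some ((false, true), (pol m, (pol m, pol m''))))) = _
          unfold Hr2
          rw [Val_cx]
          exact Val_q2R _ _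
    apply idl_le
    · rintro x (⟨a, b, rfl | rfl⟩ | hx)
      · exact hq1 a b
      · exact hq2 a b
      · rw [Set.mem_singleton_iff] at hx
        subst hx
        apply Submodule.subset_span
        refine ⟨([], none), ?_⟩
        show Val parse (Hr2 fr ([], none)) = _
        unfold Hr2
        rw [Val_cx]
        rfl
    · exact hmul
  · rw [Submodule.span_le]
    rintro _ ⟨⟨c, k⟩, rfl⟩
    show Val parse (Hr2 fr (c, k)) ∈ If (Val parse fr)
    unfold Hr2
    rw [Val_cx]
    apply CX_mem
    cases k with
    | none => exact f_If
    | some y =>
      obtain ⟨⟨b, q⟩, a1, a2, a3⟩ := y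
      cases b <;> cases q
      · exact I0_le_If (by
          show Val parse (t2R F a1 a2 a3) ∈ _
          rw [Val_t2R]; exact asc_lin2 _ _ _)
      · exact I0_le_If (by
          show Val parse (q2R F a1 a3) ∈ _
          rw [Val_q2R]; exact asc_alt2 _ _)
      · exact I0_le_If (by
          show Val parse (t1R F a1 a2 a3) ∈ _
          rw [Val_t1R]; exact asc_lin1 _ _ _)
      · exact I0_le_If (by
          show Val parse (q1R F a1 a3) ∈ _
          rw [Val_q1R]; exact asc_alt1 _ _)

section comp

variable [Primcodable F]

theorem primrec_q1R : Primrec (fun y : Pw × Pw => q1R F y.1 y.2) := by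
  have a : Primrec (fun y : Pw × Pw => y.1) := Primrec.fst
  have c : Primrec (fun y : Pw × Pw => y.2) := Primrec.snd
  unfold q1R
  refine Primrec.list_cons.comp ?_ (primrec_sing ?_)
  · exact (Primrec.const 1).pair (primrec_mP.comp (primrec_mP.comp a a) c)
  · exact (Primrec.const (-1)).pair (primrec_mP.comp a (primrec_mP.comp a c))

theorem primrec_q2R : Primrec (fun y : Pw × Pw => q2R F y.1 y.2) := by
  have a : Primrec (fun y : Pw × Pw => y.1) := Primrec.fst
  have c : Primrec (fun y : Pw × Pw => y.2) := Primrec.snd
  unfold q2R
  refine Primrec.list_cons.comp ?_ (primrec_sing ?_)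
  · exact (Primrec.const 1).pair (primrec_mP.comp (primrec_mP.comp c a) a)
  · exact (Primrec.const (-1)).pair (primrec_mP.comp c (primrec_mP.comp a a))

theorem primrec_Hr2 (fr : Raw F) : Primrec (Hr2 fr) := by
  have p1 : Primrec (fun (z : (Cx × Option ((Bool × Bool) × (Pw × (Pw × Pw)))) ×
      ((Bool × Bool) × (Pw × (Pw × Pw)))) => z.2.2) := Primrec.snd.comp Primrec.snd
  have p2 : Primrec (fun (z : (Cx × Option ((Bool × Bool) × (Pw × (Pw × Pw)))) ×
      ((Bool × Bool) × (Pw × (Pw × Pw)))) => (z.2.2.1, z.2.2.2.2)) :=
    (Primrec.fst.comp p1).pair (Primrec.snd.comp (Primrec.snd.comp p1))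
  have e1 : Primrec₂ (fun (_ : Cx × Option ((Bool × Bool) × (Pw × (Pw × Pw))))
      (y : (Bool × Bool) × (Pw × (Pw × Pw))) =>
      (bif y.1.2 then (bif y.1.1 then q1R F y.2.1 y.2.2.2 else q2R F y.2.1 y.2.2.2)
      else (bif y.1.1 then t1R F y.2.1 y.2.2.1 y.2.2.2 else t2R F y.2.1 y.2.2.1 y.2.2.2))) := by
    refine Primrec.cond (Primrec.snd.comp (Primrec.fst.comp Primrec.snd)) ?_ ?_
    · exact Primrec.cond (Primrec.fst.comp (Primrec.fst.comp Primrec.snd))
        (primrec_q1R.comp p2) (primrec_q2R.comp p2)
    · exact Primrec.cond (Primrec.fst.comp (Primrec.fst.comp Primrec.snd))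
        (primrec_t1R.comp p1) (primrec_t2R.comp p1)
  have e2 : Primrec (fun k : Cx × Option ((Bool × Bool) × (Pw × (Pw × Pw))) =>
      (Option.casesOn k.2 fr fun y =>
      (bif y.1.2 then (bif y.1.1 then q1R F y.2.1 y.2.2.2 else q2R F y.2.1 y.2.2.2)
      else (bif y.1.1 then t1R F y.2.1 y.2.2.1 y.2.2.2 else t2R F y.2.1 y.2.2.1 y.2.2.2)) :
        Raw F)) :=
    Primrec.option_casesOn Primrec.snd (Primrec.const fr) e1
  exact primrec_cx.comp Primrec.fst e2

/-- raw basis elements -/
def vJR {k : ℕ} (G : Fin k → List ((F × F) × (Fin 8 × (Fin 10 → ℕ)))) (sr : Raw F) :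
    IxJ k → Raw F := Sum.elim (vR F) (Sum.elim (vER G) fun β => cx (lwC (cl β)) sr)

omit [Primcodable F] in
theorem Val_vJR {k : ℕ} (G : Fin k → List (F × (Fin 8 × (Fin 10 → ℕ)))) (sr : Raw F)
    (x : IxJ k) : Val parse (vJR (fun s => dbl (G s)) sr x) = vJ G (Val parse sr) x := by
  rcases x with x | (x | β)
  · exact Val_vR x
  · exact Val_vER G x
  · show Val parse (cx (lwC (cl β)) sr) = Lm F (cl β) (Val parse sr)
    rw [Val_cx, CX_lwC]

theorem primrec_vJR {k : ℕ} (G : Fin k → List ((F × F) × (Fin 8 × (Fin 10 → ℕ))))
    (sr : Raw F) : Primrec (vJR G sr) := by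
  have e1 : Primrec (vR F) := by
    unfold vR
    exact primrec_cx.comp ((Primrec.dom_finite lsC).comp Primrec.fst)
      (primrec_itR (primrec_cl.comp Primrec.snd) _)
  have e2 : Primrec (fun β : Fin 3 → ℕ => cx (lwC (cl β)) sr) := by
    refine primrec_cx.comp ?_ (Primrec.const sr)
    unfold lwC
    refine Primrec.list_map primrec_cl ?_
    exact (Primrec.const true).pair (primrec_sing (Primrec.option_some.comp Primrec.snd))
  have e3 : Primrec (Sum.elim (vER G) (fun β : Fin 3 → ℕ => cx (lwC (cl β)) sr)) := by
    have := Primrec.sumCasesOn (f := fun z : IxE k ⊕ (Fin 3 → ℕ) => z)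
      (g := fun _ k => vER G k) (h := fun _ β => cx (lwC (cl β)) sr) Primrec.id
      ((primrec_vER G).comp Primrec.snd).to₂ (e2.comp Primrec.snd).to₂
    refine this.of_eq ?_
    rintro (k | i) <;> rfl
  have := Primrec.sumCasesOn (f := fun z : IxJ k => z)
      (g := fun _ k => vR F k) (h := fun _ i => Sum.elim (vER G)
        (fun β : Fin 3 → ℕ => cx (lwC (cl β)) sr) i) Primrec.id
      (e1.comp Primrec.snd).to₂ (e3.comp Primrec.snd).to₂
  refine this.of_eq ?_
  rintro (k | i) <;> rfl

end comp

end

end Pool.Agent.Helper120_Alt.R4
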